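import Mathlib

namespace Pool.Agent.P.MP_edcda5_an

open MeasureTheory
open scoped ENNReal

/-- The average of a real function over the axis-parallel cube with lower corner a and side l,
as an extended nonnegative number. -/
noncomputable def cubeAvg {d : ℕ} (a : Fin d → ℝ) (l : ℝ) (f : (Fin d → ℝ) → ℝ) : ℝ≥0∞ :=
  ⨍⁻ x in Set.Icc a (fun i => a i + l), ENNReal.ofReal (f x) ∂volume

/-- The reverse Holder constant. -/
noncomputable def rhConst {d : ℕ} (p : ℝ) (w : (Fin d → ℝ) → ℝ) : ℝ≥0∞ :=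
  ⨆ (a : Fin d → ℝ) (l : ℝ) (_ : 0 < l),
    cubeAvg a l (fun x => w x ^ p) ^ (1 / p) * (cubeAvg a l w)⁻¹

end Pool.Agent.P.MP_edcda5_an
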