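import Pool.Agent.P.MP_edcda5_an.Cover

namespace Pool.Agent.P.MP_edcda5_an

open MeasureTheory Metric Set Filter Topology
open scoped ENNReal

variable {d : ℕ}

theorem truncated (W : (Fin d → ℝ) → ℝ) (hW : Measurable W) (hW0 : ∀ x, 0 ≤ W x)
    (p K : ℝ) (hp : 1 < p) (hK : 0 < K)
    (H : ∀ (c : Fin d → ℝ) (r : ℝ), 0 < r → ∀ t : ℝ, 0 < t →
      ∫⁻ x in closedBall c r, ENNReal.ofReal (W x) ≤ ENNReal.ofReal t * volume (closedBall c r) →
      ∫⁻ x in closedBall c r, ENNReal.ofReal (W x ^ p) ≤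
        ENNReal.ofReal ((K * t) ^ p) * volume (closedBall c r))
    (c0 : Fin d → ℝ) (R0 : ℝ) (hR0 : 0 < R0) (a : ℝ) (ha : 0 < a)
    (hQ : ∫⁻ x in closedBall c0 R0, ENNReal.ofReal (W x) ≤
      ENNReal.ofReal a * volume (closedBall c0 R0))
    (ε : ℝ) (hε : 0 < ε) (hε1 : ε ≤ 1) (hεK : ε * (4 * 5 ^ d * 2 ^ p * K ^ p) ≤ p - 1)
    (N : ℝ) (hN : 0 ≤ N) :
    ∫⁻ x in closedBall c0 R0, ENNReal.ofReal (W x ^ p) * ENNReal.ofReal ((min (W x) N) ^ ε) ≤
      ENNReal.ofReal (2 * (K * a) ^ p * a ^ ε) * volume (closedBall c0 R0) := by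
  set Q := closedBall c0 R0 with hQdef
  have hQm : MeasurableSet Q := measurableSet_closedBall
  have mWp : Measurable fun x => ENNReal.ofReal (W x ^ p) := (hW.pow_const p).ennreal_ofReal
  have mW : Measurable fun x => ENNReal.ofReal (W x) := hW.ennreal_ofReal
  let μ : Measure (Fin d → ℝ) := (volume.restrict Q).withDensity fun x => ENNReal.ofReal (W x ^ p)
  let ν : Measure (Fin d → ℝ) := (volume.restrict Q).withDensity fun x => ENNReal.ofReal (W x)
  let f : (Fin d → ℝ) → ℝ := fun x => min (W x) N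
  let g : (Fin d → ℝ) → ℝ := fun x => min (2 * W x) N
  have mf : Measurable f := hW.min measurable_const
  have mg : Measurable g := (hW.const_mul 2).min measurable_const
  have f0 : ∀ x, 0 ≤ f x := fun x => le_min (hW0 x) hN
  have g0 : ∀ x, 0 ≤ g x := fun x => le_min (by linarith [hW0 x]) hN
  have hμ : μ univ ≤ ENNReal.ofReal ((K * a) ^ p) * volume Q := by
    simp only [μ]
    rw [withDensity_apply _ MeasurableSet.univ, Measure.restrict_univ]
    exact H c0 R0 hR0 a ha hQ
  have hμfin : μ univ ≠ ∞ := ne_top_of_le_ne_top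
    (ENNReal.mul_ne_top ENNReal.ofReal_ne_top measure_closedBall_lt_top.ne) hμ
  set q := p - 1 + ε with hq
  have hq0 : 0 < q := by linarith
  set C : ℝ := 2 * 5 ^ d * K ^ p with hC
  have hC0 : 0 < C := by positivity
  have L1 := lintegral_rpow_eq_lintegral_meas_lt_mul μ (ae_of_all _ f0) mf.aemeasurable hε
  have L2 := lintegral_rpow_eq_lintegral_meas_lt_mul μ (f := fun _ => a)
    (ae_of_all _ fun _ => ha.le) aemeasurable_const hε
  have L3 := lintegral_rpow_eq_lintegral_meas_lt_mul ν (ae_of_all _ g0) mg.aemeasurable hq0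
  have key : ∀ t ∈ Ioi (0 : ℝ), μ {x | t < f x} * ENNReal.ofReal (t ^ (ε - 1)) ≤
      μ {_x | t < a} * ENNReal.ofReal (t ^ (ε - 1)) +
        ENNReal.ofReal C * (ν {x | t < g x} * ENNReal.ofReal (t ^ (q - 1))) := by
    intro t ht
    have ht : 0 < t := ht
    by_cases h1 : t < a
    · refine le_trans ?_ le_self_add
      exact mul_le_mul_left (measure_mono fun x _ => h1) _
    refine le_trans ?_ le_add_self
    by_cases h2 : t < N
    · have e1 : {x | t < f x} = {x | t < W x} := by ext x; simp [f, h2]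
      have e2 : {x | t < g x} = {x | t / 2 < W x} := by
        ext x; simp only [g, lt_min_iff, h2, and_true, mem_ofPred_eq]
        constructor <;> intro h <;> linarith
      have m1 : MeasurableSet {x | t < W x} := measurableSet_lt measurable_const hW
      have m2 : MeasurableSet {x | t / 2 < W x} := measurableSet_lt measurable_const hW
      have hg := good_lambda W hW (fun x => ENNReal.ofReal (W x ^ p)) t ht
        (ENNReal.ofReal ((K * t) ^ p)) (fun c r hr => H c r hr t ht) c0 R0 hR0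
        (hQ.trans (by gcongr; exact not_lt.1 h1))
      simp only [μ, ν]
      rw [e1, e2, withDensity_apply _ m1, withDensity_apply _ m2, Measure.restrict_restrict m1,
        Measure.restrict_restrict m2, inter_comm _ Q, inter_comm _ Q]
      refine (mul_le_mul_left hg _).trans (le_of_eq ?_)
      rw [mul_right_comm, mul_comm _ (ENNReal.ofReal (t ^ (q - 1))), ← mul_assoc,
        ← ENNReal.ofReal_mul (by positivity), ← ENNReal.ofReal_mul (by positivity),
        ← ENNReal.ofReal_mul (by positivity)]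
      congr 2
      have e3 : t ^ (q - 1) = t ^ p * t ^ (ε - 1) / t := by
        rw [← Real.rpow_add ht, ← Real.rpow_sub_one ht.ne']
        congr 1; rw [hq]; ring
      rw [e3, hC, Real.mul_rpow hK.le ht.le]
      ring
    · have e1 : {x | t < f x} = ∅ := by ext x; simp [f, h2]
      rw [e1]; simp
  set I := ∫⁻ x, ENNReal.ofReal (f x ^ ε) ∂μ with hI
  set J := ∫⁻ t in Ioi (0 : ℝ), ν {x | t < g x} * ENNReal.ofReal (t ^ (q - 1)) with hJ
  have hIfin : I ≠ ∞ := by
    have : I ≤ ENNReal.ofReal (N ^ ε) * μ univ := by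
      rw [← lintegral_const]
      apply lintegral_mono
      intro x
      exact ENNReal.ofReal_le_ofReal (Real.rpow_le_rpow (f0 x) (min_le_right _ _) hε.le)
    exact ne_top_of_le_ne_top (ENNReal.mul_ne_top ENNReal.ofReal_ne_top hμfin) this
  have mf' : Measurable fun x => ENNReal.ofReal (f x ^ ε) := (mf.pow_const ε).ennreal_ofReal
  have hIeq : I = ∫⁻ x in Q, ENNReal.ofReal (W x ^ p) * ENNReal.ofReal (f x ^ ε) :=
    lintegral_withDensity_eq_lintegral_mul _ mWp mf'
  have s1 : I ≤ ENNReal.ofReal (a ^ ε) * μ univ + ENNReal.ofReal ε * (ENNReal.ofReal C * J) := by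
    rw [lintegral_const] at L2
    rw [L1, L2, ← mul_add, hJ,
      ← lintegral_const_mul' (ENNReal.ofReal C) _ ENNReal.ofReal_ne_top, ← lintegral_add_left]
    · gcongr ENNReal.ofReal ε * ?_
      exact setLIntegral_mono' measurableSet_Ioi key
    · apply Measurable.mul
      · apply Antitone.measurable
        intro s t hst
        exact measure_mono fun x hx => hst.trans_lt hx
      · exact (measurable_id.pow_const _).ennreal_ofReal
  have s2 : ENNReal.ofReal q * J ≤ ENNReal.ofReal (2 ^ p) * I := by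
    rw [← L3, hIeq, ← lintegral_const_mul' _ _ ENNReal.ofReal_ne_top]
    simp only [ν]
    rw [lintegral_withDensity_eq_lintegral_mul _ mW (mg.pow_const q).ennreal_ofReal]
    apply lintegral_mono
    intro x
    simp only [Pi.mul_apply]
    have hx := hW0 x
    have hfx := f0 x
    rw [← ENNReal.ofReal_mul hx, ← ENNReal.ofReal_mul (by positivity),
      ← ENNReal.ofReal_mul (by positivity)]
    apply ENNReal.ofReal_le_ofReal
    have b1 : g x ≤ 2 * f x := by
      simp only [f, g, min_def]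
      split_ifs <;> linarith
    have b2 : g x ^ q ≤ 2 ^ p * (W x ^ (p - 1) * f x ^ ε) := by
      calc g x ^ q ≤ (2 * f x) ^ q := Real.rpow_le_rpow (g0 x) b1 hq0.le
        _ = 2 ^ q * (f x ^ (p - 1) * f x ^ ε) := by
          rw [Real.mul_rpow (by norm_num) hfx, hq, Real.rpow_add_of_nonneg hfx (by linarith) hε.le]
        _ ≤ 2 ^ p * (W x ^ (p - 1) * f x ^ ε) := by
          gcongr
          · norm_num
          · linarith
          · exact min_le_left _ _
    have b3 : W x ^ p = W x * W x ^ (p - 1) := by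
      conv_lhs => rw [show p = 1 + (p - 1) by ring]
      rw [Real.rpow_add_of_nonneg hx (by norm_num) (by linarith), Real.rpow_one]
    rw [b3]
    calc W x * g x ^ q ≤ W x * (2 ^ p * (W x ^ (p - 1) * f x ^ ε)) := by gcongr
      _ = _ := by ring
  have s3 : 2 * (ENNReal.ofReal ε * (ENNReal.ofReal C * J)) ≤ I := by
    have h2p : (0 : ℝ) < 2 ^ p := by positivity
    rw [← ENNReal.mul_le_mul_iff_right (a := ENNReal.ofReal (2 ^ p))
      (ENNReal.ofReal_pos.2 h2p).ne' ENNReal.ofReal_ne_top]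
    refine le_trans ?_ s2
    rw [← mul_assoc, ← mul_assoc, ← mul_assoc]
    gcongr
    rw [show (2 : ℝ≥0∞) = ENNReal.ofReal 2 by simp, ← ENNReal.ofReal_mul (by positivity),
      ← ENNReal.ofReal_mul (by positivity), ← ENNReal.ofReal_mul (by positivity)]
    apply ENNReal.ofReal_le_ofReal
    rw [hC, hq]
    nlinarith
  have s4 : I ≤ 2 * (ENNReal.ofReal (a ^ ε) * μ univ) := by
    have : I + I ≤ 2 * (ENNReal.ofReal (a ^ ε) * μ univ) + I := by
      calc I + I = 2 * I := (two_mul I).symm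
        _ ≤ 2 * (ENNReal.ofReal (a ^ ε) * μ univ + ENNReal.ofReal ε * (ENNReal.ofReal C * J)) := by
          gcongr
        _ = _ + _ := mul_add _ _ _
        _ ≤ _ := by gcongr
    exact (ENNReal.add_le_add_iff_right hIfin).1 this
  rw [← hIeq]
  refine s4.trans ?_
  calc 2 * (ENNReal.ofReal (a ^ ε) * μ univ)
      ≤ 2 * (ENNReal.ofReal (a ^ ε) * (ENNReal.ofReal ((K * a) ^ p) * volume Q)) := by gcongr
    _ = _ := by
      rw [show (2 : ℝ≥0∞) = ENNReal.ofReal 2 by simp, ← mul_assoc, ← mul_assoc,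
        ← ENNReal.ofReal_mul (by positivity), ← ENNReal.ofReal_mul (by positivity)]
      congr 2
      ring

theorem core (W : (Fin d → ℝ) → ℝ) (hW : Measurable W) (hW0 : ∀ x, 0 ≤ W x)
    (p K : ℝ) (hp : 1 < p) (hK : 0 < K)
    (H : ∀ (c : Fin d → ℝ) (r : ℝ), 0 < r → ∀ t : ℝ, 0 < t →
      ∫⁻ x in closedBall c r, ENNReal.ofReal (W x) ≤ ENNReal.ofReal t * volume (closedBall c r) →
      ∫⁻ x in closedBall c r, ENNReal.ofReal (W x ^ p) ≤
        ENNReal.ofReal ((K * t) ^ p) * volume (closedBall c r))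
    (c0 : Fin d → ℝ) (R0 : ℝ) (hR0 : 0 < R0) (a : ℝ) (ha : 0 < a)
    (hQ : ∫⁻ x in closedBall c0 R0, ENNReal.ofReal (W x) ≤
      ENNReal.ofReal a * volume (closedBall c0 R0))
    (ε : ℝ) (hε : 0 < ε) (hε1 : ε ≤ 1) (hεK : ε * (4 * 5 ^ d * 2 ^ p * K ^ p) ≤ p - 1) :
    ∫⁻ x in closedBall c0 R0, ENNReal.ofReal (W x ^ (p + ε)) ≤
      ENNReal.ofReal (2 * (K * a) ^ p * a ^ ε) * volume (closedBall c0 R0) := by
  have h1 : ∫⁻ x in closedBall c0 R0, ENNReal.ofReal (W x ^ (p + ε)) ≤
      ∫⁻ x in closedBall c0 R0, ⨆ n : ℕ,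
        ENNReal.ofReal (W x ^ p) * ENNReal.ofReal ((min (W x) n) ^ ε) := by
    apply lintegral_mono
    intro x
    refine le_iSup_of_le ⌈W x⌉₊ (le_of_eq ?_)
    rw [min_eq_left (Nat.le_ceil _), ← ENNReal.ofReal_mul (Real.rpow_nonneg (hW0 x) _),
      ← Real.rpow_add_of_nonneg (hW0 x) (by linarith) hε.le]
  refine h1.trans ?_
  rw [lintegral_iSup]
  · exact iSup_le fun n => truncated W hW hW0 p K hp hK H c0 R0 hR0 a ha hQ ε hε hε1 hεK n
      (Nat.cast_nonneg n)
  · intro n
    exact (hW.pow_const p).ennreal_ofReal.mul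
      ((hW.min measurable_const).pow_const ε).ennreal_ofReal
  · intro m n hmn x
    simp only
    gcongr
    exact le_min (hW0 x) (Nat.cast_nonneg m)

end Pool.Agent.P.MP_edcda5_an
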