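import Mathlib

namespace Pool.Agent.P.MP_edcda5_an

open MeasureTheory Metric Set Filter Topology
open scoped ENNReal

variable {d : ℕ}

theorem clamp (c0 c : Fin d → ℝ) (R0 ρ : ℝ) (h0 : 0 ≤ ρ) (h : ρ ≤ R0) :
    ∃ c' : Fin d → ℝ, closedBall c' ρ ⊆ closedBall c0 R0 ∧
      closedBall c ρ ∩ closedBall c0 R0 ⊆ closedBall c' ρ := by
  refine ⟨fun i => max (c0 i - R0 + ρ) (min (c i) (c0 i + R0 - ρ)), ?_, ?_⟩
  · intro x hx
    rw [mem_closedBall, dist_pi_le_iff (by linarith)] at hx ⊢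
    intro i
    have := hx i
    rw [Real.dist_eq, abs_le] at this ⊢
    simp only [max_def, min_def] at this
    split_ifs at this <;> constructor <;> linarith [this.1, this.2]
  · rintro x ⟨hx, hx'⟩
    rw [mem_closedBall, dist_pi_le_iff (by linarith)] at hx hx' ⊢
    intro i
    have h1 := hx i
    have h2 := hx' i
    rw [Real.dist_eq, abs_le] at h1 h2 ⊢
    simp only [max_def, min_def]
    split_ifs <;> constructor <;> linarith [h1.1, h1.2, h2.1, h2.2]

theorem vol_ball (c : Fin d → ℝ) {r : ℝ} (hr : 0 ≤ r) :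
    volume (closedBall c r) = ENNReal.ofReal ((2 * r) ^ d) := by
  rw [Real.volume_pi_closedBall c hr, Fintype.card_fin]

theorem good_lambda (W : (Fin d → ℝ) → ℝ) (hW : Measurable W) (F : (Fin d → ℝ) → ℝ≥0∞)
    (t : ℝ) (ht : 0 < t) (A : ℝ≥0∞)
    (H : ∀ (c : Fin d → ℝ) (r : ℝ), 0 < r →
      ∫⁻ x in closedBall c r, ENNReal.ofReal (W x) ≤ ENNReal.ofReal t * volume (closedBall c r) →
      ∫⁻ x in closedBall c r, F x ≤ A * volume (closedBall c r))
    (c0 : Fin d → ℝ) (R0 : ℝ) (hR0 : 0 < R0)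
    (hQ : ∫⁻ x in closedBall c0 R0, ENNReal.ofReal (W x) ≤
      ENNReal.ofReal t * volume (closedBall c0 R0)) :
    ∫⁻ x in closedBall c0 R0 ∩ {x | t < W x}, F x ≤
      A * ENNReal.ofReal (5 ^ d * (2 / t)) *
        ∫⁻ x in closedBall c0 R0 ∩ {x | t / 2 < W x}, ENNReal.ofReal (W x) := by
  set Q := closedBall c0 R0 with hQdef
  have hQm : MeasurableSet Q := measurableSet_closedBall
  have hfin : ∫⁻ x in Q, ENNReal.ofReal (W x) ≠ ∞ :=
    ne_top_of_le_ne_top (ENNReal.mul_ne_top ENNReal.ofReal_ne_top measure_closedBall_lt_top.ne) hQ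
  let T : Set ((Fin d → ℝ) × ℝ) := {b | 0 < b.2 ∧ b.2 ≤ R0 ∧ closedBall b.1 b.2 ⊆ Q ∧
    ENNReal.ofReal t * volume (closedBall b.1 b.2) <
      ∫⁻ x in closedBall b.1 b.2, ENNReal.ofReal (W x)}
  let T' : Set ((Fin d → ℝ) × ℝ) := {b | b ∈ T ∧ ∀ b' ∈ T,
    closedBall b.1 b.2 ⊆ closedBall b'.1 b'.2 → b'.2 < 2 * b.2}
  have hTT' : ∀ a ∈ T, ∃ a' ∈ T', closedBall a.1 a.2 ⊆ closedBall a'.1 a'.2 := by
    intro a ha
    let S : Set ℝ := {r | ∃ c, (c, r) ∈ T ∧ closedBall a.1 a.2 ⊆ closedBall c r}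
    have hS : a.2 ∈ S := ⟨a.1, ha, subset_rfl⟩
    have hSb : BddAbove S := ⟨R0, by rintro r ⟨c, hc, -⟩; exact hc.2.1⟩
    have hpos : 0 < sSup S := ha.1.trans_le (le_csSup hSb hS)
    obtain ⟨r, ⟨c, hc, hsub⟩, hr⟩ := exists_lt_of_lt_csSup ⟨_, hS⟩ (half_lt_self hpos)
    refine ⟨(c, r), ⟨hc, fun b' hb' hb => ?_⟩, hsub⟩
    have : b'.2 ≤ sSup S := le_csSup hSb ⟨b'.1, hb', hsub.trans hb⟩
    simp only
    linarith
  obtain ⟨u, huT, hdisj, hcov⟩ := Vitali.exists_disjoint_subfamily_covering_enlargement_closedBall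
    T' (fun b => b.1) (fun b => b.2) R0 (fun a ha => ha.1.2.1) 5 (by norm_num)
  have hcount : u.Countable := by
    apply hdisj.countable_of_nonempty_interior
    intro b hb
    exact ⟨b.1, mem_interior_iff_mem_nhds.2 (closedBall_mem_nhds _ (huT hb).1.1)⟩
  -- almost every point of the level set is covered
  have hae : ∀ᵐ x, x ∈ Q ∩ {x | t < W x} → x ∈ ⋃ b ∈ u, (closedBall b.1 (5 * b.2) ∩ Q) := by
    have h1 := (Besicovitch.vitaliFamily (volume : Measure (Fin d → ℝ))).ae_tendsto_lintegral_div'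
      (f := Q.indicator fun x => ENNReal.ofReal (W x))
      ((hW.ennreal_ofReal).indicator hQm) (by rwa [lintegral_indicator hQm])
    have h2 : ∀ᵐ x : Fin d → ℝ, x ∉ sphere c0 R0 :=
      measure_eq_zero_iff_ae_notMem.1 (Measure.addHaar_sphere_of_ne_zero _ c0 hR0.ne')
    filter_upwards [h1, h2] with x hx hx2 ⟨hxQ, hxt⟩
    have hxb : x ∈ ball c0 R0 := by
      rw [mem_ball]
      exact lt_of_le_of_ne hxQ hx2
    have h3 := hx.comp (Besicovitch.tendsto_filterAt volume x)
    rw [indicator_of_mem hxQ] at h3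
    have h4 := h3.eventually (lt_mem_nhds ((ENNReal.ofReal_lt_ofReal_iff (ht.trans hxt)).2 hxt))
    have h5 : ∀ᶠ r in 𝓝[>] (0 : ℝ), r < R0 - dist x c0 :=
      mem_nhdsWithin_of_mem_nhds (gt_mem_nhds (by rw [mem_ball] at hxb; linarith))
    obtain ⟨r, h6, h7, h8⟩ := (h4.and (h5.and self_mem_nhdsWithin)).exists
    have hr0 : 0 < r := h8
    have hsub : closedBall x r ⊆ Q := closedBall_subset_closedBall' (by linarith)
    have hmem : (x, r) ∈ T := by
      refine ⟨hr0, by linarith [dist_nonneg (x := x) (y := c0)], hsub, ?_⟩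
      simp only [Function.comp] at h6
      rw [ENNReal.lt_div_iff_mul_lt (Or.inl (measure_closedBall_pos _ _ hr0).ne')
        (Or.inl measure_closedBall_lt_top.ne)] at h6
      refine h6.trans_le (le_of_eq ?_)
      apply setLIntegral_congr_fun measurableSet_closedBall
      intro y hy
      exact indicator_of_mem (hsub hy) _
    obtain ⟨a', ha', hs⟩ := hTT' _ hmem
    obtain ⟨b, hb, hs'⟩ := hcov a' ha'
    exact mem_biUnion hb ⟨hs' (hs (mem_closedBall_self hr0.le)), hxQ⟩
  have hone : ∀ b ∈ u, ∫⁻ x in closedBall b.1 (5 * b.2) ∩ Q, F x ≤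
      A * ENNReal.ofReal (5 ^ d * (2 / t)) *
        ∫⁻ x in closedBall b.1 b.2 ∩ {x | t / 2 < W x}, ENNReal.ofReal (W x) := by
    intro b hb
    obtain ⟨⟨hb0, hbR, hbQ, hbt⟩, hmax⟩ := huT hb
    have s1 : ∫⁻ x in closedBall b.1 (5 * b.2) ∩ Q, F x ≤
        A * ENNReal.ofReal ((2 * (5 * b.2)) ^ d) := by
      by_cases hc : 5 * b.2 ≤ R0
      · obtain ⟨c', k1, k2⟩ := clamp c0 b.1 R0 (5 * b.2) (by linarith) hc
        have k3 : closedBall b.1 b.2 ⊆ closedBall c' (5 * b.2) := fun x hx =>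
          k2 ⟨closedBall_subset_closedBall (by linarith) hx, hbQ hx⟩
        have k4 : ∫⁻ x in closedBall c' (5 * b.2), ENNReal.ofReal (W x) ≤
            ENNReal.ofReal t * volume (closedBall c' (5 * b.2)) := by
          by_contra hlt
          have := hmax (c', 5 * b.2) ⟨by simp only; linarith, hc, k1, not_le.1 hlt⟩ k3
          simp only at this
          linarith
        have k5 := H c' (5 * b.2) (by linarith) k4
        rw [vol_ball _ (by linarith)] at k5
        exact (lintegral_mono_set k2).trans k5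
      · have k5 := H c0 R0 hR0 hQ
        rw [vol_ball _ hR0.le] at k5
        refine (lintegral_mono_set inter_subset_right).trans (k5.trans ?_)
        gcongr
        linarith
    have s2 : ENNReal.ofReal (t / 2) * volume (closedBall b.1 b.2) ≤
        ∫⁻ x in closedBall b.1 b.2 ∩ {x | t / 2 < W x}, ENNReal.ofReal (W x) := by
      have hm : MeasurableSet {x | t / 2 < W x} := measurableSet_lt measurable_const hW
      have e1 := lintegral_inter_add_sdiff (μ := volume) (fun x => ENNReal.ofReal (W x))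
        (closedBall b.1 b.2) hm
      have e2 : ∫⁻ x in closedBall b.1 b.2 \ {x | t / 2 < W x}, ENNReal.ofReal (W x) ≤
          ENNReal.ofReal (t / 2) * volume (closedBall b.1 b.2) := by
        calc _ ≤ ∫⁻ x in closedBall b.1 b.2 \ {x | t / 2 < W x}, ENNReal.ofReal (t / 2) := by
              apply setLIntegral_mono' (measurableSet_closedBall.diff hm)
              intro x hx
              exact ENNReal.ofReal_le_ofReal (not_lt.1 hx.2)
          _ = ENNReal.ofReal (t / 2) * volume (closedBall b.1 b.2 \ {x | t / 2 < W x}) :=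
              setLIntegral_const _ _
          _ ≤ _ := by gcongr; exact sdiff_subset
      have e3 : ENNReal.ofReal t = ENNReal.ofReal (t / 2) + ENNReal.ofReal (t / 2) := by
        rw [← ENNReal.ofReal_add (by linarith) (by linarith)]; congr 1; ring
      rw [e3, add_mul, ← e1] at hbt
      have e4 := hbt.trans_le (add_le_add_right e2 _)
      exact ((ENNReal.add_lt_add_iff_right (ENNReal.mul_ne_top ENNReal.ofReal_ne_top
        measure_closedBall_lt_top.ne)).1 e4).le
    refine s1.trans ?_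
    rw [mul_assoc]
    gcongr
    refine le_trans (le_of_eq ?_) (mul_le_mul_right s2 _)
    rw [vol_ball _ hb0.le, ← ENNReal.ofReal_mul (by positivity),
      ← ENNReal.ofReal_mul (by positivity)]
    congr 1
    rw [show 2 * (5 * b.2) = 5 * (2 * b.2) by ring, mul_pow]
    field_simp
  have hm : MeasurableSet {x | t / 2 < W x} := measurableSet_lt measurable_const hW
  have := hcount.to_subtype
  calc ∫⁻ x in Q ∩ {x | t < W x}, F x
      ≤ ∫⁻ x in ⋃ b ∈ u, (closedBall b.1 (5 * b.2) ∩ Q), F x := lintegral_mono_set' hae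
    _ = ∫⁻ x in ⋃ b : u, (closedBall b.1.1 (5 * b.1.2) ∩ Q), F x := by rw [biUnion_eq_iUnion]
    _ ≤ ∑' b : u, ∫⁻ x in (closedBall b.1.1 (5 * b.1.2) ∩ Q), F x := lintegral_iUnion_le _ _
    _ ≤ ∑' b : u, A * ENNReal.ofReal (5 ^ d * (2 / t)) *
        ∫⁻ x in closedBall b.1.1 b.1.2 ∩ {x | t / 2 < W x}, ENNReal.ofReal (W x) :=
        ENNReal.tsum_le_tsum fun b => hone b.1 b.2
    _ = A * ENNReal.ofReal (5 ^ d * (2 / t)) *
        ∫⁻ x in ⋃ b ∈ u, (closedBall b.1 b.2 ∩ {x | t / 2 < W x}), ENNReal.ofReal (W x) := by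
        rw [ENNReal.tsum_mul_left, lintegral_biUnion hcount
          (fun b _ => measurableSet_closedBall.inter hm)
          (hdisj.mono fun b => inter_subset_left)]
    _ ≤ _ := by
        gcongr
        exact iUnion₂_subset fun b hb => inter_subset_inter_left _ (huT hb).1.2.2.1

end Pool.Agent.P.MP_edcda5_an
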