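import Pool.Agent.P.MP_edcda5_an.Defs

namespace Pool.Agent.P.MP_edcda5_an

open MeasureTheory
open scoped ENNReal

/-- The Hardy-Littlewood maximal function over all axis-parallel cubes that contain x. -/
noncomputable def maxCube {d : ℕ} (f : (Fin d → ℝ) → ℝ) (x : Fin d → ℝ) : ℝ≥0∞ :=
  ⨆ (a : Fin d → ℝ) (l : ℝ) (_ : 0 < l) (_ : x ∈ Set.Icc a (fun i => a i + l)), cubeAvg a l f

/-- The Fujii-Wilson constant. -/
noncomputable def fwConst {d : ℕ} (v : (Fin d → ℝ) → ℝ) : ℝ≥0∞ :=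
  ⨆ (a : Fin d → ℝ) (l : ℝ) (_ : 0 < l),
    (∫⁻ x in Set.Icc a (fun i => a i + l),
        maxCube ((Set.Icc a (fun i => a i + l)).indicator v) x) /
      ∫⁻ x in Set.Icc a (fun i => a i + l), ENNReal.ofReal (v x)

end Pool.Agent.P.MP_edcda5_an
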