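import Pool.Agent.P.MP_edcda5_an.LTree

namespace Pool.Agent.P.MP_edcda5_an

open Finset

variable {C ι : Type*} [Fintype ι]

/-- The average, over the descendants of generation n, of the largest of m and the values of F
met along the path. -/
noncomputable def pMax (ch : C → ι → C) (F : C → ℝ) : ℕ → C → ℝ → ℝ
  | 0, c, m => max m (F c)
  | n + 1, c, m => (∑ i, pMax ch F n (ch c i) (max m (F c))) / Fintype.card ι

theorem le_pMax [Nonempty ι] (ch : C → ι → C) (F : C → ℝ) :
    ∀ n c m, m ≤ pMax ch F n c m := by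
  have hN : (0 : ℝ) < Fintype.card ι := by exact_mod_cast Fintype.card_pos
  intro n
  induction n with
  | zero => intro c m; exact le_max_left _ _
  | succ n ih =>
    intro c m
    simp only [pMax]
    rw [le_div_iff₀ hN]
    have h := sum_le_sum fun i (_ : i ∈ (univ : Finset ι)) =>
      (le_max_left m (F c)).trans (ih (ch c i) (max m (F c)))
    rw [sum_const, card_univ, nsmul_eq_mul] at h
    linarith

theorem pMax_of_le (ch : C → ι → C) (F : C → ℝ) (n : ℕ) (c : C) (m : ℝ) (h : m ≤ F c) :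
    pMax ch F n c m = pMax ch F n c (F c) := by
  cases n with
  | zero => simp only [pMax, max_eq_right h, max_self]
  | succ n => simp only [pMax, max_eq_right h, max_self]

theorem slope_mono (s x y : ℝ) (hs : 1 ≤ s) (hx : 0 ≤ x) (hxy : x ≤ y) (hx1 : x ≠ 1)
    (hy1 : y ≠ 1) : (x ^ s - 1) / (x - 1) ≤ (y ^ s - 1) / (y - 1) := by
  have := (convexOn_rpow hs).secant_mono (a := 1) (x := x) (y := y) (by simp) hx
    (hx.trans hxy) hx1 hy1 hxy
  simpa using this

/-- The two monotonicity facts for h(t) = (t^(1+δ) - 1) / (t^δ - 1). -/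
theorem h_mono (δ x y : ℝ) (hδ : 0 < δ) (hx : 1 < x) (hxy : x ≤ y) :
    (x * x ^ δ - 1) / (x ^ δ - 1) ≤ (y * y ^ δ - 1) / (y ^ δ - 1) ∧
      x * ((y * y ^ δ - 1) / (y ^ δ - 1)) ≤ y * ((x * x ^ δ - 1) / (x ^ δ - 1)) := by
  have hy : 1 < y := hx.trans_le hxy
  have hx0 : 0 < x := by linarith
  have hy0 : 0 < y := by linarith
  have hX : 1 < x ^ δ := Real.one_lt_rpow hx hδ
  have hY : 1 < y ^ δ := Real.one_lt_rpow hy hδ
  have hXY : x ^ δ ≤ y ^ δ := Real.rpow_le_rpow hx0.le hxy hδ.le
  have hs : 1 ≤ (1 + δ) / δ := by rw [le_div_iff₀ hδ]; linarith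
  have e : ∀ t : ℝ, 0 < t → (t ^ δ) ^ ((1 + δ) / δ) = t * t ^ δ := by
    intro t ht
    rw [← Real.rpow_mul ht.le, mul_div_cancel₀ _ hδ.ne', Real.rpow_add ht, Real.rpow_one]
  constructor
  · have := slope_mono _ (x ^ δ) (y ^ δ) hs (by linarith) hXY hX.ne' hY.ne'
    rwa [e x hx0, e y hy0] at this
  · have h1 := slope_mono _ (y ^ δ)⁻¹ (x ^ δ)⁻¹ hs (by positivity)
      (inv_anti₀ (by linarith) hXY) (inv_lt_one_of_one_lt₀ hY).ne (inv_lt_one_of_one_lt₀ hX).ne
    rw [Real.inv_rpow (by positivity), Real.inv_rpow (by positivity), e x hx0, e y hy0] at h1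
    have e2 : ∀ t T : ℝ, 0 < t → 1 < T →
        ((t * T)⁻¹ - 1) / (T⁻¹ - 1) = (t * T - 1) / (T - 1) / t := by
      intro t T ht hT
      have h3 : T - 1 ≠ 0 := by linarith
      have h4 : 1 - T ≠ 0 := by linarith
      have h5 : T ≠ 0 := by linarith
      field_simp
      ring
    rw [e2 y _ hy0 hY, e2 x _ hx0 hX, div_le_div_iff₀ hy0 hx0] at h1
    linarith

/-- The record inequality, normalised. -/
theorem record_norm (N A a δ ρ π : ℝ) (hN : 1 < N) (hA : 1 ≤ A) (ha : a = N - (N - 1) / A)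
    (hδ : 0 < δ) (hcrit : a * a ^ δ < N) (hρ : 1 < ρ) (hρN : ρ ≤ N) (hπ : ρ ≤ π)
    (hπ1 : π ≤ A * ρ) (hπ2 : π ≤ N * (A - 1) + 1) :
    ρ * (ρ ^ δ - 1) ≤ min A (N / a) * (a * a ^ δ - a) / ((A - 1) * (N - a * a ^ δ)) *
      ((ρ * ρ ^ δ - 1) - π * (ρ ^ δ - 1)) := by
  have hA0 : 0 < A := by linarith
  have haA : a * A = N * (A - 1) + 1 := by rw [ha]; field_simp; ring
  have hA1 : 1 < A := by
    by_contra h
    have : A = 1 := le_antisymm (not_lt.1 h) hA
    rw [this] at hπ2
    linarith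
  have ha1 : 1 < a := by
    by_contra h
    push Not at h
    nlinarith
  have ha0 : 0 < a := by linarith
  have haN : a ≤ N := by
    have : 0 ≤ (N - 1) / A := div_nonneg (by linarith) hA0.le
    linarith
  have hX : 1 < a ^ δ := Real.one_lt_rpow ha1 hδ
  have hR : 1 < ρ ^ δ := Real.one_lt_rpow hρ hδ
  set μ := min A (N / a) with hμ
  have hμ1 : 1 ≤ μ := le_min hA (by rw [le_div_iff₀ ha0]; linarith)
  set G := (A - 1) * (N - a * a ^ δ) / (a * a ^ δ - a) with hG
  have hD : 0 < a * a ^ δ - a := by nlinarith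
  have hG0 : 0 < G := div_pos (mul_pos (by linarith) (by linarith)) hD
  have hGa : (a * a ^ δ - 1) / (a ^ δ - 1) = a * (G + A) := by
    have h3 : a ^ δ - 1 ≠ 0 := by linarith
    have h4 : a * a ^ δ - a = a * (a ^ δ - 1) := by ring
    rw [hG, h4]
    field_simp
    linear_combination (-(a ^ δ) * 0 + 1) * haA
  have e : μ * (a * a ^ δ - a) / ((A - 1) * (N - a * a ^ δ)) = μ / G := by
    rw [hG]
    have h5 : A - 1 ≠ 0 := by linarith
    have h6 : N - a * a ^ δ ≠ 0 := by linarith
    field_simp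
  rw [e]
  set h := (ρ * ρ ^ δ - 1) / (ρ ^ δ - 1) with hh
  have e2 : ρ * ρ ^ δ - 1 - π * (ρ ^ δ - 1) = (h - π) * (ρ ^ δ - 1) := by
    have h3 : ρ ^ δ - 1 ≠ 0 := by linarith
    rw [hh]
    field_simp
  rw [e2, ← mul_assoc]
  apply mul_le_mul_of_nonneg_right _ (by linarith)
  rw [div_mul_eq_mul_div, le_div_iff₀ hG0]
  rcases le_total ρ a with hc | hc
  · have h1 := (h_mono δ ρ a hδ hρ hc).2
    rw [hGa, ← hh] at h1
    have h2 : ρ * (G + A) ≤ h := by
      apply le_of_mul_le_mul_left _ ha0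
      linarith
    have h3 : ρ * G ≤ h - π := by linarith
    have h4 : 0 ≤ h - π := le_trans (by positivity) h3
    nlinarith
  · have h1 := (h_mono δ a ρ hδ ha1 hc).1
    rw [hGa, ← hh] at h1
    have h3 : a * G ≤ h - π := by linarith
    have h4 : ρ ≤ μ * a := by
      rw [hμ, min_mul_of_nonneg _ _ ha0.le, div_mul_cancel₀ _ ha0.ne']
      exact le_min (by linarith) hρN
    calc ρ * G ≤ μ * a * G := mul_le_mul_of_nonneg_right h4 hG0.le
      _ = μ * (a * G) := by ring
      _ ≤ μ * (h - π) := mul_le_mul_of_nonneg_left h3 (by linarith)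

/-- The stopping estimate for the Fujii-Wilson condition on a tree. -/
theorem fw_claim [Nonempty ι] (ch : C → ι → C) (F : C → ℝ) (A a δ : ℝ)
    (hN1 : (1 : ℝ) < Fintype.card ι) (hA : 1 ≤ A)
    (ha : a = Fintype.card ι - (Fintype.card ι - 1) / A) (hδ : 0 < δ)
    (hcrit : a * a ^ δ < Fintype.card ι) (hF : ∀ c, 0 < F c)
    (hmF : ∀ c, F c = (∑ i, F (ch c i)) / Fintype.card ι)
    (hFW : ∀ n c, pMax ch F n c (F c) ≤ A * F c) :
    ∀ (n : ℕ) (c : C) (m : ℝ), F c ≤ m →
      tAvg ch n c (fun x => F x * F x ^ δ) ≤ F c * m ^ δ +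
        min A (Fintype.card ι / a) * (a * a ^ δ - a) / ((A - 1) * (Fintype.card ι - a * a ^ δ)) *
          (m ^ δ * (pMax ch F n c m - m)) := by
  classical
  set N : ℝ := (Fintype.card ι : ℝ) with hNdef
  have hN : 0 < N := by linarith
  have hA0 : 0 < A := by linarith
  have ha1 : 1 ≤ a := by
    have : (N - 1) / A ≤ N - 1 := div_le_self (by linarith) hA
    linarith
  have hX : 1 ≤ a ^ δ := Real.one_le_rpow ha1 hδ.le
  set lam := min A (N / a) * (a * a ^ δ - a) / ((A - 1) * (N - a * a ^ δ)) with hlam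
  have hlam0 : 0 ≤ lam := by
    apply div_nonneg (mul_nonneg (le_min hA0.le (by positivity)) (by nlinarith))
    exact mul_nonneg (by linarith) (by linarith)
  intro n
  induction n with
  | zero =>
    intro c m hm
    simp only [tAvg, pMax, max_eq_left hm, sub_self, mul_zero, add_zero]
    exact mul_le_mul_of_nonneg_left (Real.rpow_le_rpow (hF c).le hm hδ.le) (hF c).le
  | succ n ih =>
    intro c m hm
    have hm0 : 0 < m := (hF c).trans_le hm
    have key : ∀ i, tAvg ch n (ch c i) (fun x => F x * F x ^ δ) ≤ F (ch c i) * m ^ δ +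
        lam * (m ^ δ * (pMax ch F n (ch c i) m - m)) := by
      intro i
      by_cases hb : F (ch c i) ≤ m
      · exact ih _ m hb
      push Not at hb
      have hIH := ih (ch c i) _ le_rfl
      rw [pMax_of_le ch F n (ch c i) m hb.le]
      have hP1 := hFW n (ch c i)
      have hP0 := le_pMax ch F n (ch c i) (F (ch c i))
      have hP2 : pMax ch F n (ch c i) (F (ch c i)) ≤ (N * (A - 1) + 1) * m := by
        have h1 := hFW (n + 1) c
        simp only [pMax, max_self] at h1
        rw [div_le_iff₀ hN, ← add_sum_erase _ _ (mem_univ i),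
          pMax_of_le ch F n (ch c i) (F c) (hm.trans hb.le)] at h1
        have h2 := sum_le_sum fun j (_ : j ∈ univ.erase i) => le_pMax ch F n (ch c j) (F c)
        rw [sum_const, card_erase_of_mem (mem_univ i), card_univ, nsmul_eq_mul,
          Nat.cast_sub Fintype.card_pos, Nat.cast_one] at h2
        have h3 : (N * (A - 1) + 1) * F c ≤ (N * (A - 1) + 1) * m :=
          mul_le_mul_of_nonneg_left hm (by nlinarith)
        nlinarith
      have hbN : F (ch c i) ≤ N * m := by
        have h1 : F (ch c i) ≤ ∑ j, F (ch c j) :=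
          single_le_sum (f := fun j => F (ch c j)) (fun j _ => (hF _).le) (mem_univ i)
        have h2 := hmF c
        rw [eq_div_iff hN.ne'] at h2
        nlinarith
      set b := F (ch c i) with hbdef
      set P := pMax ch F n (ch c i) b with hPdef
      have hb0 : 0 < b := hF _
      have hrec := record_norm N A a δ (b / m) (P / m) hN1 hA ha hδ hcrit
        (by rw [lt_div_iff₀ hm0]; linarith) (by rw [div_le_iff₀ hm0]; exact hbN)
        (div_le_div_of_nonneg_right hP0 hm0.le)
        (by rw [← mul_div_assoc]; exact div_le_div_of_nonneg_right hP1 hm0.le)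
        (by rw [div_le_iff₀ hm0]; exact hP2)
      rw [← hlam, Real.div_rpow hb0.le hm0.le] at hrec
      have hM : 0 < m ^ δ := by positivity
      have h4 := mul_le_mul_of_nonneg_left hrec (mul_pos hm0 hM).le
      have e1 : m * m ^ δ * (b / m * (b ^ δ / m ^ δ - 1)) = b * b ^ δ - b * m ^ δ := by
        field_simp
      have e2 : m * m ^ δ * (lam * (b / m * (b ^ δ / m ^ δ) - 1 - P / m * (b ^ δ / m ^ δ - 1))) =
          lam * (m ^ δ * (P - m)) - lam * (b ^ δ * (P - b)) := by
        field_simp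
        ring
      rw [e1, e2] at h4
      linarith
    simp only [tAvg, pMax, max_eq_left hm]
    have h1 := sum_le_sum fun i (_ : i ∈ (univ : Finset ι)) => key i
    rw [sum_add_distrib, ← sum_mul, ← mul_sum, ← mul_sum, sum_sub_distrib, sum_const, card_univ,
      nsmul_eq_mul] at h1
    refine (div_le_div_of_nonneg_right h1 hN.le).trans (le_of_eq ?_)
    rw [hmF c, ← hNdef]
    field_simp

theorem fw_final [Nonempty ι] (ch : C → ι → C) (F : C → ℝ) (A a r : ℝ)
    (hN1 : (1 : ℝ) < Fintype.card ι) (hA : 1 ≤ A)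
    (ha : a = Fintype.card ι - (Fintype.card ι - 1) / A) (hr : 1 < r)
    (hcrit : a ^ r < Fintype.card ι) (hF : ∀ c, 0 < F c)
    (hmF : ∀ c, F c = (∑ i, F (ch c i)) / Fintype.card ι)
    (hFW : ∀ n c, pMax ch F n c (F c) ≤ A * F c) (n : ℕ) (c : C) :
    tAvg ch n c (fun x => F x ^ r) ≤
      (1 + min A (Fintype.card ι / a) * (a ^ r - a) / (Fintype.card ι - a ^ r)) * F c ^ r := by
  have hA0 : 0 < A := by linarith
  have ha1 : 1 ≤ a := by
    have : ((Fintype.card ι : ℝ) - 1) / A ≤ Fintype.card ι - 1 := div_le_self (by linarith) hA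
    linarith
  have e : ∀ t : ℝ, 0 < t → t ^ r = t * t ^ (r - 1) := by
    intro t ht
    rw [Real.rpow_sub_one ht.ne']
    field_simp
  have ea := e a (by linarith)
  rw [ea] at hcrit ⊢
  have hcl := fw_claim ch F A a (r - 1) hN1 hA ha (by linarith) hcrit hF hmF hFW n c (F c) le_rfl
  have e2 : (fun x => F x ^ r) = fun x => F x * F x ^ (r - 1) := funext fun x => e _ (hF x)
  rw [e2, e _ (hF c)]
  refine hcl.trans ?_
  have hX : 1 ≤ a ^ (r - 1) := Real.one_le_rpow ha1 (by linarith)
  have hc := hF c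
  have hM : 0 < F c ^ (r - 1) := by positivity
  have hμ : 0 ≤ min A (Fintype.card ι / a) := le_min hA0.le (by positivity)
  have hD : 0 ≤ a * a ^ (r - 1) - a := by nlinarith
  have hE : 0 < (Fintype.card ι : ℝ) - a * a ^ (r - 1) := by linarith
  have h1 : F c ^ (r - 1) * (pMax ch F n c (F c) - F c) ≤ F c ^ (r - 1) * ((A - 1) * F c) :=
    mul_le_mul_of_nonneg_left (by linarith [hFW n c]) hM.le
  have h2 := mul_le_mul_of_nonneg_left h1
    (div_nonneg (mul_nonneg hμ hD) (mul_nonneg (by linarith : 0 ≤ A - 1) hE.le))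
  refine (add_le_add_right h2 _).trans ?_
  rcases eq_or_lt_of_le hA with h | h
  · rw [← h]
    simp only [sub_self, zero_mul, mul_zero, add_zero]
    rw [← h] at hμ
    have : 0 ≤ min 1 (Fintype.card ι / a) * (a * a ^ (r - 1) - a) /
      (Fintype.card ι - a * a ^ (r - 1)) := div_nonneg (mul_nonneg hμ hD) hE.le
    have h3 : 0 < F c * F c ^ (r - 1) := by positivity
    nlinarith
  · apply le_of_eq
    have h5 : A - 1 ≠ 0 := by linarith
    field_simp

end Pool.Agent.P.MP_edcda5_an
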