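import Pool.Agent.P.MP_edcda5_an.LCube
import Pool.Agent.P.MP_edcda5_an.FTree
import Pool.Agent.P.MP_edcda5_an.FDefs

namespace Pool.Agent.P.MP_edcda5_an

open MeasureTheory Metric Set Filter Topology
open scoped ENNReal

variable {d : ℕ}

theorem pMax_le_lintegral (l : ℝ) (hl : 0 < l) (F : (Fin d → ℝ) × ℕ → ℝ)
    (S : Set (Fin d → ℝ)) (G : (Fin d → ℝ) → ℝ≥0∞)
    (hG : ∀ c, hCube l c ⊆ S → ∀ x ∈ hCube l c, ENNReal.ofReal (F c) ≤ G x) :
    ∀ (n : ℕ) (c : (Fin d → ℝ) × ℕ) (m : ℝ), 0 ≤ m → hCube l c ⊆ S →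
      (∀ x ∈ hCube l c, ENNReal.ofReal m ≤ G x) →
      ENNReal.ofReal (pMax (dChild l) F n c m * (l / 2 ^ c.2) ^ d) ≤ ∫⁻ x in hCube l c, G x := by
  have hmax : ∀ (c : (Fin d → ℝ) × ℕ) (m : ℝ), hCube l c ⊆ S →
      (∀ x ∈ hCube l c, ENNReal.ofReal m ≤ G x) →
      ∀ x ∈ hCube l c, ENNReal.ofReal (max m (F c)) ≤ G x := by
    intro c m hS hm x hx
    rcases le_total m (F c) with h | h
    · rw [max_eq_right h]; exact hG c hS x hx
    · rw [max_eq_left h]; exact hm x hx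
  intro n
  induction n with
  | zero =>
    intro c m hm0 hS hm
    simp only [pMax]
    rw [ENNReal.ofReal_mul (hm0.trans (le_max_left _ _)), ← volume_hCube l hl,
      ← setLIntegral_const]
    exact setLIntegral_mono' (measurableSet_hCube l c) (hmax c m hS hm)
  | succ n ih =>
    intro c m hm0 hS hm
    rw [lintegral_hCube l hl]
    have hm1 : 0 ≤ max m (F c) := hm0.trans (le_max_left _ _)
    have h1 : ∀ τ, ENNReal.ofReal (pMax (dChild l) F n (dChild l c τ) (max m (F c)) *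
        (l / 2 ^ (c.2 + 1)) ^ d) ≤ ∫⁻ x in hCube l (dChild l c τ), G x := fun τ =>
      ih (dChild l c τ) _ hm1 ((dChild_subset l hl c τ).trans hS)
        (fun x hx => hmax c m hS hm x (dChild_subset l hl c τ hx))
    refine le_trans (le_of_eq ?_) (Finset.sum_le_sum fun τ _ => h1 τ)
    rw [← ENNReal.ofReal_sum_of_nonneg (fun τ _ =>
      mul_nonneg (hm1.trans (le_pMax _ _ _ _ _)) (by positivity)), ← Finset.sum_mul]
    congr 1
    simp only [pMax]
    rw [card_pos_fun, half_side l c.2, mul_pow]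
    field_simp

theorem hCube_subset_Icc (l : ℝ) (c : (Fin d → ℝ) × ℕ) :
    hCube l c ⊆ Icc c.1 (fun i => c.1 i + l / 2 ^ c.2) := fun _ hx =>
  ⟨fun i => (hx i (mem_univ i)).1, fun i => (hx i (mem_univ i)).2.le⟩

theorem fw_main (d : ℕ) (hd : 1 ≤ d) (v : (Fin d → ℝ) → ℝ)
    (hv : LocallyIntegrable v volume) (hpos : ∀ᵐ x, 0 < v x) (hfin : fwConst v < ∞)
    (A b r : ℝ) (hA : A = (fwConst v).toReal) (hb : b = 2 ^ d - (2 ^ d - 1) / A)
    (hr : 1 < r) (hcrit : b ^ r < 2 ^ d) (a : Fin d → ℝ) (l : ℝ) (hl : 0 < l) :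
    cubeAvg a l (fun x => v x ^ r) ≤
      ENNReal.ofReal (1 + min A (2 ^ d / b) * (b ^ r - b) / (2 ^ d - b ^ r)) *
        cubeAvg a l v ^ r := by
  have hAe : fwConst v = ENNReal.ofReal A := by rw [hA, ENNReal.ofReal_toReal hfin.ne]
  have hA0 : 0 ≤ A := by rw [hA]; exact ENNReal.toReal_nonneg
  have hs : ∀ k : ℕ, 0 < l / 2 ^ k := fun k => by positivity
  set F : (Fin d → ℝ) × ℕ → ℝ := fun c => (cubeAvg c.1 (l / 2 ^ c.2) v).toReal with hFdef
  have hF0 := fun c : (Fin d → ℝ) × ℕ => (cubeAvg_pos_fin v hv hpos c.1 _ (hs c.2)).1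
  have hF1 := fun c : (Fin d → ℝ) × ℕ => (cubeAvg_pos_fin v hv hpos c.1 _ (hs c.2)).2
  have hF : ∀ c, 0 < F c := fun c => ENNReal.toReal_pos (hF0 c) (hF1 c)
  have hFe : ∀ c : (Fin d → ℝ) × ℕ, ENNReal.ofReal (F c) = cubeAvg c.1 (l / 2 ^ c.2) v :=
    fun c => ENNReal.ofReal_toReal (hF1 c)
  have hFW : ∀ n c, pMax (dChild l) F n c (F c) ≤ A * F c := by
    intro n c
    set Q := Icc c.1 (fun i => c.1 i + l / 2 ^ c.2) with hQ
    have hG : ∀ c', hCube l c' ⊆ hCube l c → ∀ x ∈ hCube l c',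
        ENNReal.ofReal (F c') ≤ maxCube (Q.indicator v) x := by
      intro c' hc' x hx
      refine le_iSup_of_le c'.1 (le_iSup_of_le (l / 2 ^ c'.2) (le_iSup_of_le (hs c'.2)
        (le_iSup_of_le (hCube_subset_Icc l c' hx) (le_of_eq ?_))))
      rw [hFe, cubeAvg_hCube l hl, cubeAvg_hCube l hl]
      congr 1
      apply setLIntegral_congr_fun (measurableSet_hCube l c')
      intro y hy
      have hyQ : y ∈ Q := hCube_subset_Icc l c (hc' hy)
      simp only [indicator_of_mem hyQ]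
    have h1 := pMax_le_lintegral l hl F (hCube l c) _ hG n c (F c) (hF c).le Subset.rfl
      (hG c Subset.rfl)
    have hI : ∫⁻ x in Q, ENNReal.ofReal (v x) = ENNReal.ofReal (F c * (l / 2 ^ c.2) ^ d) := by
      rw [ENNReal.ofReal_mul (hF c).le, hFe, cubeAvg_hCube l hl,
        ENNReal.div_mul_cancel (by simp; positivity) ENNReal.ofReal_ne_top]
      exact (setLIntegral_congr (hCube_ae l c)).symm
    have h2 : (∫⁻ x in Q, maxCube (Q.indicator v) x) / ∫⁻ x in Q, ENNReal.ofReal (v x) ≤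
        fwConst v :=
      le_iSup_of_le c.1 (le_iSup_of_le (l / 2 ^ c.2) (le_iSup_of_le (hs c.2) le_rfl))
    have hc := hF c
    have hvol : 0 < (l / 2 ^ c.2) ^ d := pow_pos (hs c.2) d
    rw [hI, ENNReal.div_le_iff (ENNReal.ofReal_pos.2 (by positivity)).ne' ENNReal.ofReal_ne_top,
      hAe, ← ENNReal.ofReal_mul hA0, ← setLIntegral_congr (hCube_ae l c)] at h2
    have h3 := (ENNReal.ofReal_le_ofReal_iff (by positivity)).1 (h1.trans h2)
    rw [← mul_assoc] at h3
    exact le_of_mul_le_mul_right h3 hvol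
  have hA1 : 1 ≤ A := by
    have h1 := (le_pMax (dChild l) F 0 (a, 0) (F (a, 0))).trans (hFW 0 (a, 0))
    have h2 := hF (a, 0)
    by_contra h3
    push Not at h3
    nlinarith
  have hN : (1 : ℝ) < 2 ^ d := one_lt_pow₀ (by norm_num) (by omega)
  have htree := fw_final (dChild l) F A b r (by rw [card_pos_fun]; exact hN) hA1
    (by rw [card_pos_fun]; exact hb) hr (by rw [card_pos_fun]; exact hcrit) hF
    (cubeAvg_mean l hl v hF1) hFW
  rw [card_pos_fun] at htree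
  have hb1 : 1 ≤ b := by
    have : ((2 : ℝ) ^ d - 1) / A ≤ 2 ^ d - 1 := div_le_self (by linarith) hA1
    linarith
  have hbr : b ≤ b ^ r := by
    have := Real.rpow_le_rpow_of_exponent_le hb1 hr.le
    rwa [Real.rpow_one] at this
  have hC : 0 ≤ 1 + min A (2 ^ d / b) * (b ^ r - b) / (2 ^ d - b ^ r) := by
    have : 0 ≤ min A (2 ^ d / b) * (b ^ r - b) / (2 ^ d - b ^ r) :=
      div_nonneg (mul_nonneg (le_min hA0 (by positivity)) (by linarith)) (by linarith)
    linarith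
  have hFa := hF (a, 0)
  have hL := limit_bound v hv hpos a l hl r _ (by linarith) (by positivity) F hFdef
    (fun n => htree n (a, 0))
  have e0 : l = l / 2 ^ 0 := by simp
  have hWa : cubeAvg a l v = ENNReal.ofReal (F (a, 0)) := by
    rw [hFe, ← e0]
  rw [hWa, ENNReal.ofReal_rpow_of_pos hFa, ← ENNReal.ofReal_mul hC]
  exact hL

theorem one_le_fw (v : (Fin d → ℝ) → ℝ) (hv : LocallyIntegrable v volume)
    (hpos : ∀ᵐ x, 0 < v x) : 1 ≤ fwConst v := by
  obtain ⟨h0, h1⟩ := cubeAvg_pos_fin v hv hpos 0 1 one_pos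
  obtain ⟨hv0, hv1⟩ := vol_Icc_ne (0 : Fin d → ℝ) 1 one_pos
  set Q := Icc (0 : Fin d → ℝ) (fun i => (0 : Fin d → ℝ) i + 1) with hQ
  have hI : ∫⁻ x in Q, ENNReal.ofReal (v x) = cubeAvg 0 1 v * volume Q := by
    unfold cubeAvg
    rw [setLAverage_eq, ENNReal.div_mul_cancel hv0 hv1]
  refine le_iSup_of_le 0 (le_iSup_of_le 1 (le_iSup_of_le one_pos ?_))
  rw [← hQ, hI, ENNReal.le_div_iff_mul_le (Or.inl (mul_ne_zero h0 hv0))
    (Or.inl (ENNReal.mul_ne_top h1 hv1)), one_mul, ← setLIntegral_const]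
  apply setLIntegral_mono' measurableSet_Icc
  intro x hx
  refine le_iSup_of_le 0 (le_iSup_of_le 1 (le_iSup_of_le one_pos (le_iSup_of_le hx (le_of_eq ?_))))
  unfold cubeAvg
  apply setLAverage_congr_fun measurableSet_Icc
  intro y hy
  have hyQ : y ∈ Q := hy
  simp only [indicator_of_mem hyQ]

theorem const_le_two (d : ℕ) (hd : 1 ≤ d) (A b δ : ℝ) (hA : 1 ≤ A)
    (hb : b = 2 ^ d - (2 ^ d - 1) / A) (hδ : 0 < δ)
    (h : δ ≤ (1 - 1 / 2 ^ d) / (2 * d * Real.log 2 * A)) :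
    b ^ (1 + δ) < 2 ^ d ∧
      1 + min A (2 ^ d / b) * (b ^ (1 + δ) - b) / (2 ^ d - b ^ (1 + δ)) ≤ 2 := by
  have hN : (1 : ℝ) < 2 ^ d := one_lt_pow₀ (by norm_num) (by omega)
  have hd0 : (0 : ℝ) < d := by exact_mod_cast hd
  have hl2 : 0 < Real.log 2 := Real.log_pos (by norm_num)
  have hA0 : 0 < A := by linarith
  set N : ℝ := 2 ^ d with hNdef
  have hlogN : Real.log N = d * Real.log 2 := by rw [hNdef, Real.log_pow]
  have hb1 : 1 ≤ b := by
    have : (N - 1) / A ≤ N - 1 := div_le_self (by linarith) hA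
    linarith
  have hbN : b < N := by
    have : 0 < (N - 1) / A := div_pos (by linarith) hA0
    linarith
  have hb0 : 0 < b := by linarith
  have h1 : b ^ δ ≤ Real.exp ((1 - 1 / N) / (2 * A)) := by
    refine (Real.rpow_le_rpow hb0.le hbN.le hδ.le).trans ?_
    rw [Real.rpow_def_of_pos (by linarith), Real.exp_le_exp, hlogN]
    rw [le_div_iff₀ (by positivity)] at h ⊢
    linarith
  have h2 : b ^ δ * (N + b) ≤ 2 * N := by
    set t := (1 - 1 / N) / (2 * A) with ht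
    have e : N + b = 2 * N * (1 - t) := by
      rw [hb, ht]
      field_simp
      ring
    have h3 := Real.add_one_le_exp (-t)
    have h4 : Real.exp t * Real.exp (-t) = 1 := by rw [← Real.exp_add]; simp
    have h5 := Real.exp_pos t
    have h6 : Real.exp t * (1 - t) ≤ 1 := by nlinarith
    calc b ^ δ * (N + b) ≤ Real.exp t * (N + b) := mul_le_mul_of_nonneg_right h1 (by linarith)
      _ = 2 * N * (Real.exp t * (1 - t)) := by rw [e]; ring
      _ ≤ 2 * N := by nlinarith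
  have hX : 1 ≤ b ^ δ := Real.one_le_rpow hb1 hδ.le
  rw [Real.rpow_add hb0, Real.rpow_one]
  have h7 : b * b ^ δ < N := by
    by_contra h8
    push Not at h8
    nlinarith
  refine ⟨h7, ?_⟩
  have h9 : min A (N / b) * (b * b ^ δ - b) ≤ N / b * (b * b ^ δ - b) :=
    mul_le_mul_of_nonneg_right (min_le_right _ _) (by nlinarith)
  have e2 : N / b * (b * b ^ δ - b) = N * b ^ δ - N := by field_simp
  have h10 : min A (N / b) * (b * b ^ δ - b) / (N - b * b ^ δ) ≤ 1 := by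
    rw [div_le_one (by linarith)]
    nlinarith
  linarith

theorem fw_displayed (d : ℕ) (hd : 1 ≤ d) (p : ℝ) (hp : 1 < p) (w : (Fin d → ℝ) → ℝ)
    (hw : LocallyIntegrable w volume) (hpos : ∀ᵐ x, 0 < w x)
    (hwp : LocallyIntegrable (fun x => w x ^ p) volume)
    (hfin : fwConst (fun x => w x ^ p) < ∞) (a : Fin d → ℝ) (l : ℝ) (hl : 0 < l) (ε : ℝ)
    (hε : 0 < ε)
    (h : ε ≤ p * (1 - 1 / 2 ^ d) / (2 * d * Real.log 2 * (fwConst (fun x => w x ^ p)).toReal)) :
    cubeAvg a l (fun x => w x ^ (p + ε)) ≤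
      2 * rhConst p w ^ (p + ε) * cubeAvg a l w ^ (p + ε) := by
  have hp0 : 0 < p := by linarith
  have hpos' : ∀ᵐ x, 0 < w x ^ p := by
    filter_upwards [hpos] with x hx using Real.rpow_pos_of_pos hx p
  have hA : 1 ≤ (fwConst (fun x => w x ^ p)).toReal := by
    rw [← ENNReal.toReal_one]
    exact ENNReal.toReal_mono hfin.ne (one_le_fw _ hwp hpos')
  obtain ⟨h1, h2⟩ := const_le_two d hd _ _ (ε / p) hA rfl (by positivity) (by
    rw [div_le_iff₀ hp0]
    refine h.trans (le_of_eq ?_)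
    ring)
  have h3 := fw_main d hd _ hwp hpos' hfin _ _ (1 + ε / p) rfl rfl
    (by have : 0 < ε / p := by positivity
        linarith) h1 a l hl
  have e : p * (1 + ε / p) = p + ε := by field_simp
  have e1 : cubeAvg a l (fun x => w x ^ (p + ε)) =
      cubeAvg a l (fun x => (w x ^ p) ^ (1 + ε / p)) := by
    unfold cubeAvg
    apply setLAverage_congr_fun_ae measurableSet_Icc
    filter_upwards [hpos] with x hx _
    rw [← Real.rpow_mul hx.le, e]
  have e2 : cubeAvg a l (fun x => w x ^ p) ^ (1 + ε / p) =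
      (cubeAvg a l (fun x => w x ^ p) ^ (1 / p)) ^ (p + ε) := by
    rw [← ENNReal.rpow_mul]
    congr 1
    field_simp
  rw [e1, mul_assoc, ← ENNReal.mul_rpow_of_nonneg _ _ (by positivity)]
  refine h3.trans (mul_le_mul' ?_ ?_)
  · rw [show (2 : ℝ≥0∞) = ENNReal.ofReal 2 by simp]
    exact ENNReal.ofReal_le_ofReal h2
  · rw [e2]
    exact ENNReal.rpow_le_rpow (cubeAvg_rh p w hw hpos a l hl) (by positivity)

end Pool.Agent.P.MP_edcda5_an
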