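import Pool.Agent.P.MP_edcda5_an.LTree
import Pool.Agent.P.MP_edcda5_an.Defs

namespace Pool.Agent.P.MP_edcda5_an

open MeasureTheory Metric Set Filter Topology
open scoped ENNReal

variable {d : ℕ}

/-- The half-open cube with lower corner c.1 and side l / 2 ^ c.2. -/
def hCube (l : ℝ) (c : (Fin d → ℝ) × ℕ) : Set (Fin d → ℝ) :=
  pi univ fun i => Ico (c.1 i) (c.1 i + l / 2 ^ c.2)

/-- The dyadic children. -/
noncomputable def dChild (l : ℝ) (c : (Fin d → ℝ) × ℕ) (τ : Fin d → Bool) : (Fin d → ℝ) × ℕ :=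
  (fun i => c.1 i + if τ i then l / 2 ^ (c.2 + 1) else 0, c.2 + 1)

/-- The position of the child that contains x. -/
noncomputable def dPos (l : ℝ) (c : (Fin d → ℝ) × ℕ) (x : Fin d → ℝ) : Fin d → Bool :=
  fun i => decide (c.1 i + l / 2 ^ (c.2 + 1) ≤ x i)

/-- The descendant of generation n that contains x. -/
noncomputable def dDesc (l : ℝ) : ℕ → (Fin d → ℝ) × ℕ → (Fin d → ℝ) → (Fin d → ℝ) × ℕ
  | 0, c, _ => c
  | n + 1, c, x => dDesc l n (dChild l c (dPos l c x)) x

theorem half_side (l : ℝ) (k : ℕ) : l / 2 ^ k = 2 * (l / 2 ^ (k + 1)) := by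
  rw [pow_succ]; field_simp

theorem mem_dChild (l : ℝ) (c : (Fin d → ℝ) × ℕ) (x : Fin d → ℝ) (hx : x ∈ hCube l c) :
    x ∈ hCube l (dChild l c (dPos l c x)) := by
  intro i _
  have h := hx i (mem_univ i)
  have e := half_side l c.2
  simp only [mem_Ico, dChild, dPos, decide_eq_true_eq] at h ⊢
  split_ifs with h1
  · constructor <;> linarith [h.1, h.2]
  · push Not at h1
    constructor <;> linarith [h.1, h.2]

theorem dPos_eq (l : ℝ) (c : (Fin d → ℝ) × ℕ) (τ : Fin d → Bool) (x : Fin d → ℝ)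
    (hx : x ∈ hCube l (dChild l c τ)) : dPos l c x = τ := by
  funext i
  have h := hx i (mem_univ i)
  simp only [mem_Ico, dChild] at h
  simp only [dPos]
  cases hτ : τ i
  · rw [hτ] at h
    simp only [Bool.false_eq_true, if_false] at h
    rw [decide_eq_false_iff_not]
    linarith [h.2]
  · rw [hτ] at h
    simp only [if_true] at h
    rw [decide_eq_true_eq]
    exact h.1

theorem dChild_subset (l : ℝ) (hl : 0 < l) (c : (Fin d → ℝ) × ℕ) (τ : Fin d → Bool) :
    hCube l (dChild l c τ) ⊆ hCube l c := by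
  intro x hx i _
  have h := hx i (mem_univ i)
  have e := half_side l c.2
  have h0 : 0 < l / 2 ^ (c.2 + 1) := by positivity
  simp only [mem_Ico, dChild] at h ⊢
  split_ifs at h with h1
  · constructor <;> linarith [h.1, h.2]
  · constructor <;> linarith [h.1, h.2]

theorem hCube_eq_iUnion (l : ℝ) (hl : 0 < l) (c : (Fin d → ℝ) × ℕ) :
    hCube l c = ⋃ τ, hCube l (dChild l c τ) := by
  apply Subset.antisymm
  · intro x hx
    exact mem_iUnion.2 ⟨_, mem_dChild l c x hx⟩
  · exact iUnion_subset fun τ => dChild_subset l hl c τ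

theorem measurableSet_hCube (l : ℝ) (c : (Fin d → ℝ) × ℕ) : MeasurableSet (hCube l c) :=
  MeasurableSet.univ_pi fun _ => measurableSet_Ico

theorem lintegral_hCube (l : ℝ) (hl : 0 < l) (c : (Fin d → ℝ) × ℕ) (f : (Fin d → ℝ) → ℝ≥0∞) :
    ∫⁻ x in hCube l c, f x = ∑ τ, ∫⁻ x in hCube l (dChild l c τ), f x := by
  conv_lhs => rw [hCube_eq_iUnion l hl c]
  rw [lintegral_iUnion (fun τ => measurableSet_hCube l _), tsum_fintype]
  intro τ σ hne
  rw [Function.onFun, Set.disjoint_left]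
  intro x h1 h2
  exact hne ((dPos_eq l c τ x h1).symm.trans (dPos_eq l c σ x h2))

theorem volume_hCube (l : ℝ) (hl : 0 < l) (c : (Fin d → ℝ) × ℕ) :
    volume (hCube l c) = ENNReal.ofReal ((l / 2 ^ c.2) ^ d) := by
  unfold hCube
  rw [Real.volume_pi_Ico]
  simp only [add_sub_cancel_left, Finset.prod_const, Finset.card_univ, Fintype.card_fin]
  rw [ENNReal.ofReal_pow (by positivity)]

theorem card_pos_fun : (Fintype.card (Fin d → Bool) : ℝ) = 2 ^ d := by
  simp

theorem lintegral_desc (l : ℝ) (hl : 0 < l) (Φ : (Fin d → ℝ) × ℕ → ℝ) (hΦ : ∀ c, 0 ≤ Φ c) :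
    ∀ (n : ℕ) (c : (Fin d → ℝ) × ℕ),
      ∫⁻ x in hCube l c, ENNReal.ofReal (Φ (dDesc l n c x)) =
        ENNReal.ofReal (tAvg (dChild l) n c Φ * (l / 2 ^ c.2) ^ d) := by
  intro n
  induction n with
  | zero =>
    intro c
    simp only [dDesc, tAvg]
    rw [setLIntegral_const, volume_hCube l hl, ENNReal.ofReal_mul (hΦ c)]
  | succ n ih =>
    intro c
    rw [lintegral_hCube l hl]
    have h1 : ∀ τ, ∫⁻ x in hCube l (dChild l c τ), ENNReal.ofReal (Φ (dDesc l (n + 1) c x)) =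
        ENNReal.ofReal (tAvg (dChild l) n (dChild l c τ) Φ * (l / 2 ^ (c.2 + 1)) ^ d) := by
      intro τ
      refine Eq.trans ?_ (ih (dChild l c τ))
      apply setLIntegral_congr_fun (measurableSet_hCube l _)
      intro x hx
      simp only [dDesc, dPos_eq l c τ x hx]
    simp only [h1]
    rw [← ENNReal.ofReal_sum_of_nonneg (fun τ _ =>
      mul_nonneg (tAvg_nonneg _ _ hΦ _ _) (by positivity)), ← Finset.sum_mul]
    congr 1
    simp only [tAvg]
    rw [card_pos_fun, half_side l c.2, mul_pow]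
    field_simp

theorem aemeasurable_desc (l : ℝ) (hl : 0 < l) (Φ : (Fin d → ℝ) × ℕ → ℝ≥0∞) :
    ∀ (n : ℕ) (c : (Fin d → ℝ) × ℕ),
      AEMeasurable (fun x => Φ (dDesc l n c x)) (volume.restrict (hCube l c)) := by
  intro n
  induction n with
  | zero => intro c; exact aemeasurable_const (b := Φ c)
  | succ n ih =>
    intro c
    rw [hCube_eq_iUnion l hl c, aemeasurable_iUnion_iff]
    intro τ
    refine (ih (dChild l c τ)).congr ?_
    filter_upwards [ae_restrict_mem (measurableSet_hCube l _)] with x hx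
    simp only [dDesc, dPos_eq l c τ x hx]

theorem desc_spec (l : ℝ) : ∀ (n : ℕ) (c : (Fin d → ℝ) × ℕ) (x : Fin d → ℝ), x ∈ hCube l c →
    x ∈ hCube l (dDesc l n c x) ∧ (dDesc l n c x).2 = c.2 + n := by
  intro n
  induction n with
  | zero => intro c x hx; exact ⟨hx, rfl⟩
  | succ n ih =>
    intro c x hx
    obtain ⟨h1, h2⟩ := ih _ x (mem_dChild l c x hx)
    refine ⟨h1, ?_⟩
    simp only [dDesc]
    rw [h2]
    simp only [dChild]
    ring

theorem hCube_ae (l : ℝ) (c : (Fin d → ℝ) × ℕ) :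
    hCube l c =ᵐ[volume] Icc c.1 (fun i => c.1 i + l / 2 ^ c.2) :=
  Measure.univ_pi_Ico_ae_eq_Icc

theorem cubeAvg_hCube (l : ℝ) (hl : 0 < l) (c : (Fin d → ℝ) × ℕ) (f : (Fin d → ℝ) → ℝ) :
    cubeAvg c.1 (l / 2 ^ c.2) f =
      (∫⁻ x in hCube l c, ENNReal.ofReal (f x)) / ENNReal.ofReal ((l / 2 ^ c.2) ^ d) := by
  unfold cubeAvg
  rw [← setLAverage_congr (hCube_ae l c), setLAverage_eq, volume_hCube l hl]

theorem cubeAvg_mean (l : ℝ) (hl : 0 < l) (f : (Fin d → ℝ) → ℝ)
    (hf : ∀ c : (Fin d → ℝ) × ℕ, cubeAvg c.1 (l / 2 ^ c.2) f ≠ ∞) (c : (Fin d → ℝ) × ℕ) :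
    (cubeAvg c.1 (l / 2 ^ c.2) f).toReal =
      (∑ τ, (cubeAvg (dChild l c τ).1 (l / 2 ^ (dChild l c τ).2) f).toReal) /
        Fintype.card (Fin d → Bool) := by
  have hfin : ∀ c : (Fin d → ℝ) × ℕ, ∫⁻ x in hCube l c, ENNReal.ofReal (f x) ≠ ∞ := by
    intro c h
    apply hf c
    rw [cubeAvg_hCube l hl, h, ENNReal.top_div_of_ne_top ENNReal.ofReal_ne_top]
  simp only [cubeAvg_hCube l hl, ENNReal.toReal_div]
  rw [lintegral_hCube l hl, ENNReal.toReal_sum (fun τ _ => hfin _), card_pos_fun]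
  simp only [dChild]
  rw [← Finset.sum_div, ENNReal.toReal_ofReal (by positivity),
    ENNReal.toReal_ofReal (by positivity), half_side l c.2, mul_pow]
  field_simp

theorem Icc_eq_cball (a : Fin d → ℝ) (l : ℝ) (hl : 0 ≤ l) :
    Icc a (fun i => a i + l) = closedBall (fun i => a i + l / 2) (l / 2) := by
  ext x
  rw [mem_closedBall, dist_pi_le_iff (by linarith)]
  simp only [mem_Icc, Pi.le_def, Real.dist_eq, abs_le]
  constructor
  · rintro ⟨h1, h2⟩ i
    constructor <;> linarith [h1 i, h2 i]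
  · intro h
    constructor <;> intro i <;> linarith [(h i).1, (h i).2]

theorem vol_Icc_ne (a : Fin d → ℝ) (l : ℝ) (hl : 0 < l) :
    volume (Icc a (fun i => a i + l)) ≠ 0 ∧ volume (Icc a (fun i => a i + l)) ≠ ∞ := by
  rw [Icc_eq_cball a l hl.le]
  exact ⟨(measure_closedBall_pos _ _ (by linarith)).ne', measure_closedBall_lt_top.ne⟩

theorem cubeAvg_pos_fin (w : (Fin d → ℝ) → ℝ) (hw : LocallyIntegrable w volume)
    (hpos : ∀ᵐ x, 0 < w x) (a : Fin d → ℝ) (l : ℝ) (hl : 0 < l) :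
    cubeAvg a l w ≠ 0 ∧ cubeAvg a l w ≠ ∞ := by
  obtain ⟨hv0, hv1⟩ := vol_Icc_ne a l hl
  have hi : IntegrableOn w (Icc a (fun i => a i + l)) volume :=
    hw.integrableOn_isCompact isCompact_Icc
  unfold cubeAvg
  rw [setLAverage_eq]
  refine ⟨(ENNReal.div_pos ?_ hv1).ne', ENNReal.div_ne_top hi.lintegral_lt_top.ne hv0⟩
  intro h0
  rw [lintegral_eq_zero_iff' hi.aemeasurable.ennreal_ofReal] at h0
  have h1 : ∀ᵐ x ∂(volume.restrict (Icc a (fun i => a i + l))), False := by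
    filter_upwards [h0, ae_restrict_of_ae hpos] with x hx hx'
    simp only [Pi.zero_apply, ENNReal.ofReal_eq_zero] at hx
    linarith
  rw [eventually_false_iff_eq_bot, ae_eq_bot, Measure.restrict_eq_zero] at h1
  exact hv0 h1

theorem cubeAvg_holder (p : ℝ) (hp : 1 < p) (w : (Fin d → ℝ) → ℝ)
    (hw : LocallyIntegrable w volume) (hpos : ∀ᵐ x, 0 < w x) (a : Fin d → ℝ) (l : ℝ)
    (hl : 0 < l) : cubeAvg a l w ≤ cubeAvg a l (fun x => w x ^ p) ^ (1 / p) := by
  obtain ⟨hv0, hv1⟩ := vol_Icc_ne a l hl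
  unfold cubeAvg
  rw [setLAverage_eq', setLAverage_eq']
  set m := (volume (Icc a (fun i => a i + l)))⁻¹ • volume.restrict (Icc a (fun i => a i + l))
  have hm : m univ = 1 := by
    simp only [m, Measure.smul_apply, Measure.restrict_apply_univ, smul_eq_mul]
    exact ENNReal.inv_mul_cancel hv0 hv1
  have hac : m ≪ volume := (Measure.absolutelyContinuous_of_le_smul le_rfl).trans
    Measure.absolutelyContinuous_restrict
  have hmeas : AEMeasurable (fun x => ENNReal.ofReal (w x)) m :=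
    (hw.aestronglyMeasurable.aemeasurable.mono_ac hac).ennreal_ofReal
  have := ENNReal.lintegral_mul_le_Lp_mul_Lq m (Real.HolderConjugate.conjExponent hp) hmeas
    (g := fun _ => 1) aemeasurable_const
  simp only [Pi.mul_apply, mul_one, ENNReal.one_rpow, lintegral_const, hm] at this
  refine this.trans (le_of_eq ?_)
  congr 1
  apply lintegral_congr_ae
  filter_upwards [hac.ae_le hpos] with x hx
  exact ENNReal.ofReal_rpow_of_pos hx

theorem cubeAvg_rh (p : ℝ) (w : (Fin d → ℝ) → ℝ)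
    (hw : LocallyIntegrable w volume) (hpos : ∀ᵐ x, 0 < w x) (a : Fin d → ℝ) (l : ℝ)
    (hl : 0 < l) :
    cubeAvg a l (fun x => w x ^ p) ^ (1 / p) ≤ rhConst p w * cubeAvg a l w := by
  obtain ⟨h0, h1⟩ := cubeAvg_pos_fin w hw hpos a l hl
  have h2 : cubeAvg a l (fun x => w x ^ p) ^ (1 / p) * (cubeAvg a l w)⁻¹ ≤ rhConst p w :=
    le_iSup_of_le a (le_iSup_of_le l (le_iSup_of_le hl le_rfl))
  rwa [← div_eq_mul_inv, ENNReal.div_le_iff h0 h1] at h2

/-- Passing to the limit along the dyadic generations. -/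
theorem limit_bound (w : (Fin d → ℝ) → ℝ) (hw : LocallyIntegrable w volume)
    (hpos : ∀ᵐ x, 0 < w x) (a : Fin d → ℝ) (l : ℝ) (hl : 0 < l) (q B : ℝ) (hq : 0 ≤ q)
    (hB : 0 ≤ B) (W : (Fin d → ℝ) × ℕ → ℝ)
    (hWdef : W = fun c => (cubeAvg c.1 (l / 2 ^ c.2) w).toReal)
    (htree : ∀ n, tAvg (dChild l) n (a, 0) (fun c => W c ^ q) ≤ B) :
    cubeAvg a l (fun x => w x ^ q) ≤ ENNReal.ofReal B := by
  have hs : ∀ k : ℕ, 0 < l / 2 ^ k := fun k => by positivity
  have hW : ∀ c, 0 ≤ W c := fun c => by rw [hWdef]; exact ENNReal.toReal_nonneg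
  -- the pointwise limit
  have hlim : ∀ᵐ x ∂(volume.restrict (hCube l (a, 0))),
      Tendsto (fun n => ENNReal.ofReal (W (dDesc l n (a, 0) x) ^ q)) atTop
        (𝓝 (ENNReal.ofReal (w x ^ q))) := by
    filter_upwards [ae_restrict_mem (measurableSet_hCube l (a, 0)),
      ae_restrict_of_ae (IsUnifLocDoublingMeasure.ae_tendsto_average volume hw 1)] with x hx hT
    have hlev : ∀ n, (dDesc l n (a, 0) x).2 = n := fun n => by
      rw [(desc_spec l n (a, 0) x hx).2, zero_add]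
    have h1 := hT (l := atTop) (fun n : ℕ => fun i => (dDesc l n (a, 0) x).1 i + l / 2 ^ n / 2)
      (fun n : ℕ => l / 2 ^ n / 2) (by
        rw [tendsto_nhdsWithin_iff]
        refine ⟨?_, Eventually.of_forall fun n => half_pos (hs n)⟩
        have h2 := (tendsto_pow_atTop_nhds_zero_of_lt_one (r := (1 / 2 : ℝ)) (by norm_num)
          (by norm_num)).const_mul (l / 2)
        rw [mul_zero] at h2
        refine h2.congr fun n => ?_
        rw [one_div, inv_pow]
        field_simp)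
      (Eventually.of_forall fun n => by
        rw [one_mul, ← Icc_eq_cball _ _ (hs n).le]
        have h3 := (desc_spec l n (a, 0) x hx).1
        unfold hCube at h3
        rw [hlev n] at h3
        exact ⟨fun i => (h3 i (mem_univ i)).1, fun i => (h3 i (mem_univ i)).2.le⟩)
    have h4 : Tendsto (fun n => W (dDesc l n (a, 0) x)) atTop (𝓝 (w x)) := by
      refine h1.congr fun n => ?_
      rw [← Icc_eq_cball _ _ (hs n).le]
      simp only [hWdef, hlev n]
      have hi : IntegrableOn w (Icc (dDesc l n (a, 0) x).1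
          (fun i => (dDesc l n (a, 0) x).1 i + l / 2 ^ n)) volume :=
        hw.integrableOn_isCompact isCompact_Icc
      have hnn : 0 ≤ᵐ[volume.restrict (Icc (dDesc l n (a, 0) x).1
          (fun i => (dDesc l n (a, 0) x).1 i + l / 2 ^ n))] w := by
        filter_upwards [ae_restrict_of_ae hpos] with y hy using hy.le
      unfold cubeAvg
      rw [setLAverage_eq, ← ofReal_setAverage hi hnn, ENNReal.toReal_ofReal]
      rw [setAverage_eq, smul_eq_mul]
      exact mul_nonneg (inv_nonneg.2 measureReal_nonneg) (integral_nonneg_of_ae hnn)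
    exact ENNReal.tendsto_ofReal (h4.rpow_const (Or.inr hq))
  have hfatou := lintegral_liminf_le' (μ := volume.restrict (hCube l (a, 0))) (u := atTop)
    (f := fun n x => ENNReal.ofReal (W (dDesc l n (a, 0) x) ^ q))
    (fun n => aemeasurable_desc l hl (fun c => ENNReal.ofReal (W c ^ q)) n (a, 0))
  have hL : ∫⁻ x in hCube l (a, 0), ENNReal.ofReal (w x ^ q) ≤
      ENNReal.ofReal (B * (l / 2 ^ 0) ^ d) := by
    refine le_trans (le_of_eq ?_) (hfatou.trans ?_)
    · apply lintegral_congr_ae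
      filter_upwards [hlim] with x hx
      exact hx.liminf_eq.symm
    · apply liminf_le_of_frequently_le'
      refine Frequently.of_forall fun n => ?_
      rw [lintegral_desc l hl (fun c => W c ^ q) (fun c => Real.rpow_nonneg (hW c) _)]
      exact ENNReal.ofReal_le_ofReal (mul_le_mul_of_nonneg_right (htree n) (by positivity))
  have e0 : l = l / 2 ^ 0 := by simp
  have hA := cubeAvg_hCube l hl (a, 0) (fun x => w x ^ q)
  rw [← e0] at hA hL
  rw [hA, ENNReal.div_le_iff (by simp; positivity) ENNReal.ofReal_ne_top,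
    ← ENNReal.ofReal_mul hB]
  exact hL

theorem linear_main (d : ℕ) (hd : 1 ≤ d) (p : ℝ) (hp : 1 < p) (w : (Fin d → ℝ) → ℝ)
    (hw : LocallyIntegrable w volume) (hpos : ∀ᵐ x, 0 < w x) (hfin : rhConst p w < ∞)
    (a : Fin d → ℝ) (l : ℝ) (hl : 0 < l) (ε : ℝ) (hε : 0 < ε)
    (hεK : ε ≤ p / (20 * (d + p / (p - 1))) * (rhConst p w).toReal ^ (-p)) :
    cubeAvg a l (fun x => w x ^ (p + ε)) ≤
      2 * rhConst p w ^ (p + ε) * cubeAvg a l w ^ (p + ε) := by
  have hp0 : 0 < p := by linarith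
  set K := (rhConst p w).toReal with hK
  have hKe : rhConst p w = ENNReal.ofReal K := (ENNReal.ofReal_toReal hfin.ne).symm
  have hs : ∀ k : ℕ, 0 < l / 2 ^ k := fun k => by positivity
  set W : (Fin d → ℝ) × ℕ → ℝ := fun c => (cubeAvg c.1 (l / 2 ^ c.2) w).toReal with hWdef
  set F : (Fin d → ℝ) × ℕ → ℝ :=
    fun c => (cubeAvg c.1 (l / 2 ^ c.2) (fun x => w x ^ p)).toReal with hFdef
  have hW0 := fun c : (Fin d → ℝ) × ℕ => (cubeAvg_pos_fin w hw hpos c.1 _ (hs c.2)).1
  have hW1 := fun c : (Fin d → ℝ) × ℕ => (cubeAvg_pos_fin w hw hpos c.1 _ (hs c.2)).2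
  have hW : ∀ c, 0 < W c := fun c => ENNReal.toReal_pos (hW0 c) (hW1 c)
  have hF1' : ∀ c : (Fin d → ℝ) × ℕ,
      cubeAvg c.1 (l / 2 ^ c.2) (fun x => w x ^ p) ^ (1 / p) ≠ ∞ := fun c =>
    ne_top_of_le_ne_top (ENNReal.mul_ne_top hfin.ne (hW1 c)) (cubeAvg_rh p w hw hpos _ _ (hs c.2))
  have hF1 : ∀ c : (Fin d → ℝ) × ℕ, cubeAvg c.1 (l / 2 ^ c.2) (fun x => w x ^ p) ≠ ∞ := by
    intro c h
    apply hF1' c
    rw [h, ENNReal.top_rpow_of_pos (by positivity)]
  have hF0 : ∀ c, 0 ≤ F c := fun c => ENNReal.toReal_nonneg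
  have hH' : ∀ c, W c ≤ F c ^ (1 / p) := by
    intro c
    have := ENNReal.toReal_mono (hF1' c) (cubeAvg_holder p hp w hw hpos c.1 _ (hs c.2))
    rwa [← ENNReal.toReal_rpow] at this
  have hR' : ∀ c, F c ^ (1 / p) ≤ K * W c := by
    intro c
    have := ENNReal.toReal_mono (ENNReal.mul_ne_top hfin.ne (hW1 c))
      (cubeAvg_rh p w hw hpos c.1 _ (hs c.2))
    rwa [← ENNReal.toReal_rpow, ENNReal.toReal_mul] at this
  have hFp : ∀ c, (F c ^ (1 / p)) ^ p = F c := fun c => by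
    rw [← Real.rpow_mul (hF0 c), one_div_mul_cancel hp0.ne', Real.rpow_one]
  have hH : ∀ c, W c ^ p ≤ F c := fun c => by
    rw [← hFp c]; exact Real.rpow_le_rpow (hW c).le (hH' c) hp0.le
  have hR : ∀ c, F c ≤ (K * W c) ^ p := fun c => by
    rw [← hFp c]
    exact Real.rpow_le_rpow (Real.rpow_nonneg (hF0 c) _) (hR' c) hp0.le
  have hK1 : 1 ≤ K := by
    have h1 := (hH' (a, 0)).trans (hR' (a, 0))
    have h2 := hW (a, 0)
    by_contra h3
    push Not at h3
    nlinarith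
  have hK0 : 0 < K := by linarith
  have htree := tree_final (dChild l) F W d hd (by simp) p K ε hp hK1 hε hεK hW
    (cubeAvg_mean l hl w hW1) (cubeAvg_mean l hl _ hF1) hH hR
  have hWa0 := hW (a, 0)
  have hL := limit_bound w hw hpos a l hl (p + ε) _ (by linarith) (by positivity) W hWdef
    (fun n => htree n (a, 0))
  have e0 : l = l / 2 ^ 0 := by simp
  have hWa : cubeAvg a l w = ENNReal.ofReal (W (a, 0)) := by
    simp only [hWdef]
    rw [← e0, ENNReal.ofReal_toReal (cubeAvg_pos_fin w hw hpos a l hl).2]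
  rw [hWa, hKe, ENNReal.ofReal_rpow_of_pos hK0, ENNReal.ofReal_rpow_of_pos hWa0,
    show (2 : ℝ≥0∞) = ENNReal.ofReal 2 by simp, ← ENNReal.ofReal_mul (by positivity),
    ← ENNReal.ofReal_mul (by positivity)]
  exact hL

end Pool.Agent.P.MP_edcda5_an
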