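import Mathlib

namespace Pool.Agent.P.MP_edcda5_an

open Finset

variable {C ι : Type*} [Fintype ι]

/-- The average of a node function over the descendants of generation n of a node. -/
noncomputable def tAvg (ch : C → ι → C) : ℕ → C → (C → ℝ) → ℝ
  | 0, c, Φ => Φ c
  | n + 1, c, Φ => (∑ i, tAvg ch n (ch c i) Φ) / Fintype.card ι

theorem tAvg_mono (ch : C → ι → C) (Φ Ψ : C → ℝ) (h : ∀ c, Φ c ≤ Ψ c) :
    ∀ n c, tAvg ch n c Φ ≤ tAvg ch n c Ψ := by
  intro n
  induction n with
  | zero => intro c; exact h c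
  | succ n ih =>
    intro c
    simp only [tAvg]
    exact div_le_div_of_nonneg_right (sum_le_sum fun i _ => ih _) (by positivity)

theorem tAvg_nonneg (ch : C → ι → C) (Φ : C → ℝ) (h : ∀ c, 0 ≤ Φ c) :
    ∀ n c, 0 ≤ tAvg ch n c Φ := by
  intro n
  induction n with
  | zero => intro c; exact h c
  | succ n ih =>
    intro c
    simp only [tAvg]
    exact div_nonneg (sum_nonneg fun i _ => ih _) (by positivity)

theorem tAvg_lin [Nonempty ι] (ch : C → ι → C) (Φ Ψ : C → ℝ) (α β : ℝ) :
    ∀ n c, tAvg ch n c (fun x => Φ x + α * Ψ x + β) =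
      tAvg ch n c Φ + α * tAvg ch n c Ψ + β := by
  have hN : (0 : ℝ) < Fintype.card ι := by exact_mod_cast Fintype.card_pos
  intro n
  induction n with
  | zero => intro c; rfl
  | succ n ih =>
    intro c
    simp only [tAvg, ih, sum_add_distrib, ← mul_sum, sum_const, card_univ, nsmul_eq_mul]
    field_simp

theorem tAvg_mul (ch : C → ι → C) (Ψ : C → ℝ) (α : ℝ) :
    ∀ n c, tAvg ch n c (fun x => α * Ψ x) = α * tAvg ch n c Ψ := by
  intro n
  induction n with
  | zero => intro c; rfl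
  | succ n ih =>
    intro c
    simp only [tAvg, ih, ← mul_sum]
    ring

theorem tAvg_jensen [Nonempty ι] (ch : C → ι → C) (W : C → ℝ) (hW : ∀ c, 0 ≤ W c)
    (hm : ∀ c, W c = (∑ i, W (ch c i)) / Fintype.card ι) (t : ℝ) (ht : 1 ≤ t) :
    ∀ n c, W c ^ t ≤ tAvg ch n c (fun x => W x ^ t) := by
  have hN : (0 : ℝ) < Fintype.card ι := by exact_mod_cast Fintype.card_pos
  intro n
  induction n with
  | zero => intro c; exact le_rfl
  | succ n ih =>
    intro c
    simp only [tAvg]
    have h1 := Real.rpow_arith_mean_le_arith_mean_rpow univ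
      (fun _ : ι => (1 / Fintype.card ι : ℝ)) (fun i => W (ch c i)) (fun _ _ => by positivity)
      (by rw [sum_const, card_univ, nsmul_eq_mul]; field_simp) (fun i _ => hW _) ht
    rw [← mul_sum, ← mul_sum, one_div_mul_eq_div, one_div_mul_eq_div, ← hm] at h1
    exact h1.trans (div_le_div_of_nonneg_right (sum_le_sum fun i _ => ih _) hN.le)

/-- The scalar increment inequality. -/
theorem incr_ineq (δ γ L m b u : ℝ) (hδ : 0 < δ) (hγ : 0 < γ) (hm : 0 < m) (hb : m < b)
    (hL : Real.log (b / m) ≤ L) (hu : u + γ = 1 + δ) :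
    b * b ^ δ - b * m ^ δ ≤ δ * (L + 1 / γ) * (b ^ u * (b ^ γ - m ^ γ)) := by
  have hb0 : 0 < b := hm.trans hb
  set x := Real.log (b / m) with hx
  have hx0 : 0 < x := Real.log_pos (by rw [lt_div_iff₀ hm]; linarith)
  have hmb : ∀ s : ℝ, m ^ s = b ^ s * Real.exp (-(s * x)) := by
    intro s
    rw [Real.rpow_def_of_pos hm, Real.rpow_def_of_pos hb0, ← Real.exp_add, hx,
      Real.log_div hb0.ne' hm.ne']
    congr 1
    ring
  have e1 : b * b ^ δ = b ^ u * b ^ γ := by
    rw [← Real.rpow_add hb0, hu, Real.rpow_add hb0, Real.rpow_one]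
  have hP : 0 < b ^ u * b ^ γ := by positivity
  have h1 : 1 - Real.exp (-(δ * x)) ≤ δ * x := by
    have := Real.add_one_le_exp (-(δ * x))
    linarith
  have h2 : γ * x ≤ (1 + γ * x) * (1 - Real.exp (-(γ * x))) := by
    have h3 := Real.add_one_le_exp (γ * x)
    have h4 : Real.exp (γ * x) * Real.exp (-(γ * x)) = 1 := by
      rw [← Real.exp_add]; simp
    have h5 := Real.exp_pos (-(γ * x))
    nlinarith
  have h6 : 0 ≤ 1 - Real.exp (-(γ * x)) := by
    have : Real.exp (-(γ * x)) ≤ 1 := Real.exp_le_one_iff.2 (by nlinarith)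
    linarith
  have h7 : x ≤ (L + 1 / γ) * (1 - Real.exp (-(γ * x))) := by
    have h8 : x ≤ (x + 1 / γ) * (1 - Real.exp (-(γ * x))) := by
      have e : (x + 1 / γ) * (1 - Real.exp (-(γ * x))) =
          (1 + γ * x) * (1 - Real.exp (-(γ * x))) / γ := by
        field_simp
        ring
      rw [e, le_div_iff₀ hγ]
      linarith
    exact h8.trans (mul_le_mul_of_nonneg_right (by linarith) h6)
  rw [hmb δ, hmb γ]
  calc b * b ^ δ - b * (b ^ δ * Real.exp (-(δ * x)))
      = (b ^ u * b ^ γ) * (1 - Real.exp (-(δ * x))) := by rw [← e1]; ring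
    _ ≤ (b ^ u * b ^ γ) * (δ * ((L + 1 / γ) * (1 - Real.exp (-(γ * x))))) :=
        mul_le_mul_of_nonneg_left (h1.trans (mul_le_mul_of_nonneg_left h7 hδ.le)) hP.le
    _ = _ := by ring

/-- The pointwise gain when the threshold is raised. -/
theorem gain_ineq (Y Λ M B S : ℝ) (hY : 0 ≤ Y) (hMB : M ≤ B) (hS : 0 ≤ S)
    (h : Λ < B → Y ≤ S) :
    Y * max (Λ - B) 0 + (B - M) * Y + -((B - M) * S) ≤ Y * max (Λ - M) 0 := by
  by_cases hc : Λ < B
  · have h1 := h hc
    rw [max_eq_right (by linarith)]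
    have : 0 ≤ Y * max (Λ - M) 0 := mul_nonneg hY (le_max_right _ _)
    nlinarith
  · push Not at hc
    rw [max_eq_left (by linarith), max_eq_left (by linarith)]
    nlinarith

/-- The stopping estimate on a tree. -/
theorem tree_claim [Nonempty ι] (ch : C → ι → C) (F W : C → ℝ) (p K δ t γ : ℝ)
    (hp : 0 < p) (hK : 0 < K) (hδ : 0 < δ) (ht : 1 ≤ t) (hγ : 0 < γ) (hu : t / p + γ = 1 + δ)
    (hW : ∀ c, 0 < W c) (hF : ∀ c, 0 < F c)
    (hmW : ∀ c, W c = (∑ i, W (ch c i)) / Fintype.card ι)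
    (hmF : ∀ c, F c = (∑ i, F (ch c i)) / Fintype.card ι)
    (hRH : ∀ c, F c ≤ (K * W c) ^ p) :
    ∀ (n : ℕ) (c : C) (m : ℝ), F c ≤ m →
      tAvg ch n c (fun x => F x * F x ^ δ) ≤ F c * m ^ δ +
        2 * K ^ t * (δ * (Real.log (Fintype.card ι) + 1 / γ)) *
          tAvg ch n c (fun x => W x ^ t *
            max (((2 : ℝ) ^ (1 / t) * (K * W x)) ^ (p * γ) - m ^ γ) 0) := by
  have hN : (0 : ℝ) < Fintype.card ι := by exact_mod_cast Fintype.card_pos
  have hN1 : (1 : ℝ) ≤ Fintype.card ι := by exact_mod_cast Fintype.card_pos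
  have hlog : 0 ≤ Real.log (Fintype.card ι) := Real.log_nonneg hN1
  set D := δ * (Real.log (Fintype.card ι) + 1 / γ) with hD
  have hD0 : 0 < D := by positivity
  have ht0 : 0 < t := by linarith
  intro n
  induction n with
  | zero =>
    intro c m hm
    simp only [tAvg]
    have h1 : F c ^ δ ≤ m ^ δ := Real.rpow_le_rpow (hF c).le hm hδ.le
    have h2 : 0 ≤ 2 * K ^ t * D * (W c ^ t *
        max (((2 : ℝ) ^ (1 / t) * (K * W c)) ^ (p * γ) - m ^ γ) 0) := by
      have := hW c
      have := le_max_right (((2 : ℝ) ^ (1 / t) * (K * W c)) ^ (p * γ) - m ^ γ) 0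
      positivity
    nlinarith [hF c]
  | succ n ih =>
    intro c m hm
    have hm0 : 0 < m := (hF c).trans_le hm
    have key : ∀ i, tAvg ch n (ch c i) (fun x => F x * F x ^ δ) ≤ F (ch c i) * m ^ δ +
        2 * K ^ t * D * tAvg ch n (ch c i) (fun x => W x ^ t *
            max (((2 : ℝ) ^ (1 / t) * (K * W x)) ^ (p * γ) - m ^ γ) 0) := by
      intro i
      by_cases hb : F (ch c i) ≤ m
      · exact ih _ m hb
      push Not at hb
      set c' := ch c i with hc'
      set b := F c' with hbdef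
      have hb0 : 0 < b := hF c'
      have hbN : b / m ≤ Fintype.card ι := by
        rw [div_le_iff₀ hm0]
        have h1 : b ≤ ∑ j, F (ch c j) :=
          single_le_sum (f := fun j => F (ch c j)) (fun j _ => (hF _).le) (mem_univ i)
        have h2 := hmF c
        rw [eq_div_iff hN.ne'] at h2
        nlinarith
      have hinc := incr_ineq δ γ (Real.log (Fintype.card ι)) m b (t / p) hδ hγ hm0 hb
        (Real.log_le_log (by positivity) hbN) hu
      have hIH := ih c' b le_rfl
      have hMB : m ^ γ ≤ b ^ γ := Real.rpow_le_rpow hm0.le hb.le hγ.le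
      set S := b ^ (t / p) / K ^ t / 2 with hS
      have hS0 : 0 ≤ S := by positivity
      have hpt : ∀ x, W x ^ t * max (((2 : ℝ) ^ (1 / t) * (K * W x)) ^ (p * γ) - b ^ γ) 0 +
          (b ^ γ - m ^ γ) * W x ^ t + -((b ^ γ - m ^ γ) * S) ≤
          W x ^ t * max (((2 : ℝ) ^ (1 / t) * (K * W x)) ^ (p * γ) - m ^ γ) 0 := by
        intro x
        have hx := hW x
        apply gain_ineq _ _ _ _ _ (by positivity) hMB hS0
        intro hlt
        have h1 : ((2 : ℝ) ^ (1 / t) * (K * W x)) ^ p < b := by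
          rw [Real.rpow_mul (by positivity)] at hlt
          exact (Real.rpow_lt_rpow_iff (by positivity) hb0.le hγ).1 hlt
        have h2 : (((2 : ℝ) ^ (1 / t) * (K * W x)) ^ p) ^ (t / p) ≤ b ^ (t / p) :=
          Real.rpow_le_rpow (by positivity) h1.le (by positivity)
        rw [← Real.rpow_mul (by positivity), mul_div_cancel₀ _ hp.ne',
          Real.mul_rpow (by positivity) (by positivity),
          Real.mul_rpow (by positivity) (by positivity), ← Real.rpow_mul (by positivity),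
          one_div_mul_cancel ht0.ne', Real.rpow_one] at h2
        rw [hS, le_div_iff₀ (by norm_num), le_div_iff₀ (by positivity)]
        linarith
      have hav := tAvg_mono ch _ _ hpt n c'
      rw [tAvg_lin] at hav
      have hJ := tAvg_jensen ch W (fun c => (hW c).le) hmW t ht n c'
      have hsW : 2 * S ≤ W c' ^ t := by
        have hx := hW c'
        have h2 : b ^ (t / p) ≤ ((K * W c') ^ p) ^ (t / p) :=
          Real.rpow_le_rpow hb0.le (hRH c') (by positivity)
        rw [← Real.rpow_mul (by positivity), mul_div_cancel₀ _ hp.ne',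
          Real.mul_rpow (by positivity) (by positivity)] at h2
        rw [hS, mul_div_cancel₀ _ (by norm_num : (2 : ℝ) ≠ 0), div_le_iff₀ (by positivity)]
        linarith
      have hgain : (b ^ γ - m ^ γ) * S ≤
          (b ^ γ - m ^ γ) * tAvg ch n c' (fun x => W x ^ t) + -((b ^ γ - m ^ γ) * S) := by
        have : 0 ≤ (b ^ γ - m ^ γ) * (tAvg ch n c' (fun x => W x ^ t) - 2 * S) :=
          mul_nonneg (by linarith) (by linarith)
        linarith
      have hE : D * (b ^ (t / p) * (b ^ γ - m ^ γ)) = 2 * K ^ t * D * ((b ^ γ - m ^ γ) * S) := by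
        rw [hS]
        field_simp
      have hκ : 0 ≤ 2 * K ^ t * D := by positivity
      have h9 : (b ^ γ - m ^ γ) * S ≤
          tAvg ch n c' (fun x => W x ^ t *
            max (((2 : ℝ) ^ (1 / t) * (K * W x)) ^ (p * γ) - m ^ γ) 0) -
          tAvg ch n c' (fun x => W x ^ t *
            max (((2 : ℝ) ^ (1 / t) * (K * W x)) ^ (p * γ) - b ^ γ) 0) := by linarith
      have h10 := mul_le_mul_of_nonneg_left h9 hκ
      rw [← hD, hE] at hinc
      rw [mul_sub] at h10
      linarith
    simp only [tAvg]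
    have h1 := sum_le_sum fun i (_ : i ∈ (univ : Finset ι)) => key i
    rw [sum_add_distrib, ← sum_mul, ← mul_sum] at h1
    refine (div_le_div_of_nonneg_right h1 hN.le).trans (le_of_eq ?_)
    rw [hmF c]
    ring

/-- The higher integrability bound on a tree with 2^d children at each node. -/
theorem tree_final [Nonempty ι] (ch : C → ι → C) (F W : C → ℝ) (d : ℕ) (hd : 1 ≤ d)
    (hι : Fintype.card ι = 2 ^ d) (p K ε : ℝ) (hp : 1 < p) (hK : 1 ≤ K) (hε : 0 < ε)
    (hεK : ε ≤ p / (20 * (d + p / (p - 1))) * K ^ (-p))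
    (hW : ∀ c, 0 < W c)
    (hmW : ∀ c, W c = (∑ i, W (ch c i)) / Fintype.card ι)
    (hmF : ∀ c, F c = (∑ i, F (ch c i)) / Fintype.card ι)
    (hH : ∀ c, W c ^ p ≤ F c) (hRH : ∀ c, F c ≤ (K * W c) ^ p) (n : ℕ) (c : C) :
    tAvg ch n c (fun x => W x ^ (p + ε)) ≤ 2 * K ^ (p + ε) * W c ^ (p + ε) := by
  have hp0 : 0 < p := by linarith
  have hK0 : 0 < K := by linarith
  have hF : ∀ c, 0 < F c := fun c => (Real.rpow_pos_of_pos (hW c) p).trans_le (hH c)
  have hd1 : (1 : ℝ) ≤ d := by exact_mod_cast hd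
  set p' := p / (p - 1) with hp'
  have hp'1 : 1 ≤ p' := by rw [hp', le_div_iff₀ (by linarith)]; linarith
  set δ := ε / p with hδ
  have hδ0 : 0 < δ := by positivity
  set t := (p + ε + 1) / 2 with ht
  set γ := (p + ε - 1) / (2 * p) with hγ
  have ht1 : 1 ≤ t := by rw [ht]; linarith
  have hγ0 : 0 < γ := div_pos (by linarith) (by positivity)
  have hu : t / p + γ = 1 + δ := by rw [ht, hγ, hδ]; field_simp; ring
  have hpγ : p * γ = (p + ε - 1) / 2 := by rw [hγ]; field_simp
  have hq : t + p * γ = p + ε := by rw [hpγ, ht]; ring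
  have hcl := tree_claim ch F W p K δ t γ hp0 hK0 hδ0 ht1 hγ0 hu hW hF hmW hmF hRH n c (F c) le_rfl
  -- powers of W are dominated by powers of F
  have hWF : ∀ x, W x ^ (p + ε) ≤ F x * F x ^ δ := by
    intro x
    have h1 : (W x ^ p) ^ (1 + δ) ≤ F x ^ (1 + δ) :=
      Real.rpow_le_rpow (Real.rpow_pos_of_pos (hW x) p).le (hH x) (by linarith)
    rw [← Real.rpow_mul (hW x).le, Real.rpow_add (hF x), Real.rpow_one] at h1
    have e : p * (1 + δ) = p + ε := by rw [hδ]; field_simp
    rwa [e] at h1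
  have hFW : F c * F c ^ δ ≤ K ^ (p + ε) * W c ^ (p + ε) := by
    have h1 : F c ^ (1 + δ) ≤ ((K * W c) ^ p) ^ (1 + δ) :=
      Real.rpow_le_rpow (hF c).le (hRH c) (by linarith)
    have hx := hW c
    have e : p * (1 + δ) = p + ε := by rw [hδ]; field_simp
    rw [← Real.rpow_mul (by positivity), Real.rpow_add (hF c), Real.rpow_one, e,
      Real.mul_rpow hK0.le hx.le] at h1
    exact h1
  have h2 : ((2 : ℝ) ^ (1 / t)) ^ (p * γ) ≤ 2 := by
    rw [← Real.rpow_mul (by norm_num)]
    calc (2 : ℝ) ^ (1 / t * (p * γ)) ≤ 2 ^ (1 : ℝ) := by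
          apply Real.rpow_le_rpow_of_exponent_le (by norm_num)
          rw [one_div_mul_eq_div, div_le_one (by linarith), hpγ, ht]
          linarith
      _ = 2 := Real.rpow_one 2
  have hG : ∀ x, W x ^ t * max (((2 : ℝ) ^ (1 / t) * (K * W x)) ^ (p * γ) - F c ^ γ) 0 ≤
      2 * K ^ (p * γ) * (F x * F x ^ δ) := by
    intro x
    have hx := hW x
    have hc := hF c
    have h3 : max (((2 : ℝ) ^ (1 / t) * (K * W x)) ^ (p * γ) - F c ^ γ) 0 ≤
        2 * K ^ (p * γ) * W x ^ (p * γ) := by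
      apply max_le _ (by positivity)
      rw [Real.mul_rpow (by positivity) (by positivity), Real.mul_rpow hK0.le hx.le]
      have h4 : 0 ≤ K ^ (p * γ) * W x ^ (p * γ) := by positivity
      have h5 : 0 ≤ F c ^ γ := by positivity
      nlinarith
    calc _ ≤ W x ^ t * (2 * K ^ (p * γ) * W x ^ (p * γ)) :=
          mul_le_mul_of_nonneg_left h3 (by positivity)
      _ = 2 * K ^ (p * γ) * W x ^ (p + ε) := by
          rw [← hq, Real.rpow_add hx]; ring
      _ ≤ _ := mul_le_mul_of_nonneg_left (hWF x) (by positivity)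
  have hav := tAvg_mono ch _ _ hG n c
  rw [tAvg_mul] at hav
  set X := tAvg ch n c (fun x => F x * F x ^ δ) with hX
  have hX0 : 0 ≤ X := tAvg_nonneg ch _ (fun x => by have := hF x; positivity) n c
  -- the numerical bound on the coefficient
  have hlogN : Real.log (Fintype.card ι) ≤ d := by
    rw [hι]
    push_cast
    rw [Real.log_pow]
    have := Real.log_two_lt_d9
    nlinarith
  have hlog0 : 0 ≤ Real.log (Fintype.card ι) :=
    Real.log_nonneg (by exact_mod_cast Fintype.card_pos)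
  have hγ1 : 1 / γ ≤ 2 * p' := by
    rw [hγ, hp', one_div_div, ← mul_div_assoc]
    exact div_le_div_of_nonneg_left (by positivity) (by linarith) (by linarith)
  have hKp : 1 ≤ K ^ p := Real.one_le_rpow hK hp0.le
  have hδK : δ * K ^ p ≤ 1 / (20 * (d + p')) := by
    rw [Real.rpow_neg hK0.le, ← div_eq_mul_inv, le_div_iff₀ (by positivity)] at hεK
    rw [hδ, div_mul_eq_mul_div, div_le_iff₀ hp0, one_div_mul_eq_div]
    exact hεK
  have hδK' : δ * K ^ p ≤ 1 / 40 :=
    hδK.trans (one_div_le_one_div_of_le (by norm_num) (by linarith))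
  have hKε : K ^ ε ≤ 5 / 4 := by
    have e : K ^ ε = Real.exp (δ * Real.log (K ^ p)) := by
      rw [Real.log_rpow hK0, Real.rpow_def_of_pos hK0, hδ]
      congr 1
      field_simp
    have h3 : Real.log (K ^ p) ≤ K ^ p := (Real.log_le_sub_one_of_pos (by positivity)).trans
      (by linarith)
    have h4 : δ * Real.log (K ^ p) ≤ 1 / 40 := (mul_le_mul_of_nonneg_left h3 hδ0.le).trans hδK'
    have h5 := Real.add_one_le_exp (-(δ * Real.log (K ^ p)))
    have h6 : Real.exp (δ * Real.log (K ^ p)) * Real.exp (-(δ * Real.log (K ^ p))) = 1 := by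
      rw [← Real.exp_add]; simp
    have h7 := Real.exp_pos (δ * Real.log (K ^ p))
    rw [e]
    nlinarith
  have hcoef : 2 * K ^ t * (δ * (Real.log (Fintype.card ι) + 1 / γ)) * (2 * K ^ (p * γ)) ≤
      1 / 2 := by
    have e : 2 * K ^ t * (δ * (Real.log (Fintype.card ι) + 1 / γ)) * (2 * K ^ (p * γ)) =
        4 * (δ * K ^ p * (Real.log (Fintype.card ι) + 1 / γ)) * K ^ ε := by
      have : K ^ t * K ^ (p * γ) = K ^ p * K ^ ε := by
        rw [← Real.rpow_add hK0, ← Real.rpow_add hK0, hq]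
      linear_combination (4 * δ * (Real.log (Fintype.card ι) + 1 / γ)) * this
    have h3 : δ * K ^ p * (Real.log (Fintype.card ι) + 1 / γ) ≤ 1 / 10 := by
      calc _ ≤ 1 / (20 * (d + p')) * (2 * (d + p')) :=
            mul_le_mul hδK (by linarith) (by positivity) (by positivity)
        _ = 1 / 10 := by field_simp; ring
    have h4 : 0 ≤ δ * K ^ p * (Real.log (Fintype.card ι) + 1 / γ) := by positivity
    have h5 : 0 ≤ K ^ ε := by positivity
    rw [e]
    nlinarith
  have hκ : 0 ≤ 2 * K ^ t * (δ * (Real.log (Fintype.card ι) + 1 / γ)) := by positivity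
  have h8 := mul_le_mul_of_nonneg_left hav hκ
  rw [← mul_assoc] at h8
  have h9 := mul_le_mul_of_nonneg_right hcoef hX0
  have h10 := tAvg_mono ch _ _ hWF n c
  linarith

end Pool.Agent.P.MP_edcda5_an
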