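import Pool.Agent.P.MP_edcda5_an.Core
import Pool.Agent.P.MP_edcda5_an.Defs

namespace Pool.Agent.P.MP_edcda5_an

open MeasureTheory Metric Set Filter Topology
open scoped ENNReal

variable {d : ℕ}

theorem Icc_eq_ball (a : Fin d → ℝ) (l : ℝ) (hl : 0 ≤ l) :
    Icc a (fun i => a i + l) = closedBall (fun i => a i + l / 2) (l / 2) := by
  ext x
  rw [mem_closedBall, dist_pi_le_iff (by linarith)]
  simp only [mem_Icc, Pi.le_def, Real.dist_eq, abs_le]
  constructor
  · rintro ⟨h1, h2⟩ i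
    constructor <;> linarith [h1 i, h2 i]
  · intro h
    constructor <;> intro i <;> linarith [(h i).1, (h i).2]

theorem cubeAvg_eq (c : Fin d → ℝ) (r : ℝ) (hr : 0 ≤ r) (f : (Fin d → ℝ) → ℝ) :
    cubeAvg (fun i => c i - r) (2 * r) f =
      (∫⁻ x in closedBall c r, ENNReal.ofReal (f x)) / volume (closedBall c r) := by
  unfold cubeAvg
  rw [Icc_eq_ball _ _ (by linarith), setLAverage_eq]
  have e1 : (fun i => c i - r + 2 * r / 2) = c := by funext i; ring
  have e2 : 2 * r / 2 = r := by ring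
  rw [e1, e2]

theorem avg_pos_fin (w : (Fin d → ℝ) → ℝ) (hw : LocallyIntegrable w volume)
    (hpos : ∀ᵐ x, 0 < w x) (c : Fin d → ℝ) (r : ℝ) (hr : 0 < r) :
    (∫⁻ x in closedBall c r, ENNReal.ofReal (w x)) ≠ 0 ∧
      (∫⁻ x in closedBall c r, ENNReal.ofReal (w x)) ≠ ∞ := by
  have hi : IntegrableOn w (closedBall c r) volume :=
    hw.integrableOn_isCompact (isCompact_closedBall c r)
  constructor
  · intro h0
    rw [lintegral_eq_zero_iff' hi.aemeasurable.ennreal_ofReal] at h0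
    have h1 : ∀ᵐ x ∂(volume.restrict (closedBall c r)), False := by
      filter_upwards [h0, ae_restrict_of_ae hpos] with x hx hx'
      simp only [Pi.zero_apply, ENNReal.ofReal_eq_zero] at hx
      linarith
    rw [eventually_false_iff_eq_bot, ae_eq_bot, Measure.restrict_eq_zero] at h1
    exact (measure_closedBall_pos _ _ hr).ne' h1
  · exact hi.lintegral_lt_top.ne

theorem one_le_rh (p : ℝ) (hp : 1 < p) (w : (Fin d → ℝ) → ℝ) (hw : LocallyIntegrable w volume)
    (hpos : ∀ᵐ x, 0 < w x) : 1 ≤ rhConst p w := by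
  obtain ⟨h0, h1⟩ := avg_pos_fin w hw hpos 0 1 one_pos
  have hv0 : volume (closedBall (0 : Fin d → ℝ) 1) ≠ 0 := (measure_closedBall_pos _ _ one_pos).ne'
  have hv1 : volume (closedBall (0 : Fin d → ℝ) 1) ≠ ∞ := measure_closedBall_lt_top.ne
  refine le_iSup_of_le (fun i => (0 : Fin d → ℝ) i - 1) (le_iSup_of_le (2 * 1)
    (le_iSup_of_le (by norm_num) ?_))
  rw [← div_eq_mul_inv, ENNReal.le_div_iff_mul_le, one_mul]
  · rw [cubeAvg_eq _ _ zero_le_one, cubeAvg_eq _ _ zero_le_one, ← setLAverage_eq,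
      ← setLAverage_eq, setLAverage_eq', setLAverage_eq']
    set m := (volume (closedBall (0 : Fin d → ℝ) 1))⁻¹ •
      volume.restrict (closedBall (0 : Fin d → ℝ) 1)
    have hm : m univ = 1 := by
      simp only [m, Measure.smul_apply, Measure.restrict_apply_univ, smul_eq_mul]
      exact ENNReal.inv_mul_cancel hv0 hv1
    have hac : m ≪ volume := (Measure.absolutelyContinuous_of_le_smul le_rfl).trans
      Measure.absolutelyContinuous_restrict
    have hmeas : AEMeasurable (fun x => ENNReal.ofReal (w x)) m :=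
      (hw.aestronglyMeasurable.aemeasurable.mono_ac hac).ennreal_ofReal
    have := ENNReal.lintegral_mul_le_Lp_mul_Lq m (Real.HolderConjugate.conjExponent hp) hmeas
      (g := fun _ => 1) aemeasurable_const
    simp only [Pi.mul_apply, mul_one, ENNReal.one_rpow, lintegral_const, hm] at this
    refine this.trans (le_of_eq ?_)
    congr 1
    apply lintegral_congr_ae
    filter_upwards [hac.ae_le hpos] with x hx
    exact ENNReal.ofReal_rpow_of_pos hx
  · left
    rw [cubeAvg_eq _ _ zero_le_one]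
    exact (ENNReal.div_pos h0 hv1).ne'
  · left
    rw [cubeAvg_eq _ _ zero_le_one]
    exact ENNReal.div_ne_top h1 hv0

theorem main (d : ℕ) (p : ℝ) (hp : 1 < p) (w : (Fin d → ℝ) → ℝ)
    (hw : LocallyIntegrable w volume) (hpos : ∀ᵐ x, 0 < w x) (hfin : rhConst p w < ∞)
    (a : Fin d → ℝ) (l : ℝ) (hl : 0 < l) (ε : ℝ) (hε : 0 < ε)
    (hεK : ε ≤ min 1 ((p - 1) / (4 * 5 ^ d * 2 ^ p)) * (rhConst p w).toReal ^ (-p)) :
    cubeAvg a l (fun x => w x ^ (p + ε)) ≤
      2 * rhConst p w ^ (p + ε) * cubeAvg a l w ^ (p + ε) := by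
  set K := (rhConst p w).toReal with hK
  have hK1 : 1 ≤ K := by
    rw [hK, ← ENNReal.toReal_one]
    exact ENNReal.toReal_mono hfin.ne (one_le_rh p hp w hw hpos)
  have hK0 : 0 < K := by linarith
  have hKe : rhConst p w = ENNReal.ofReal K := (ENNReal.ofReal_toReal hfin.ne).symm
  have hKp : 1 ≤ K ^ p := Real.one_le_rpow hK1 (by linarith)
  rw [Real.rpow_neg hK0.le, ← div_eq_mul_inv, le_div_iff₀ (by positivity)] at hεK
  have hε1 : ε ≤ 1 := by nlinarith [min_le_left 1 ((p - 1) / (4 * 5 ^ d * 2 ^ p))]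
  have hε2 : ε * (4 * 5 ^ d * 2 ^ p * K ^ p) ≤ p - 1 := by
    have := hεK.trans (min_le_right _ _)
    rw [le_div_iff₀ (by positivity)] at this
    linarith
  have hm := hw.aestronglyMeasurable.aemeasurable
  let W : (Fin d → ℝ) → ℝ := fun x => max (hm.mk w x) 0
  have hWm : Measurable W := hm.measurable_mk.max measurable_const
  have hWw : ∀ᵐ x, W x = w x := by
    filter_upwards [hm.ae_eq_mk, hpos] with x h1 h2
    simp only [W, ← h1]
    exact max_eq_left h2.le
  have hcongr : ∀ (φ : ℝ → ℝ) (s : Set (Fin d → ℝ)),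
      ∫⁻ x in s, ENNReal.ofReal (φ (W x)) = ∫⁻ x in s, ENNReal.ofReal (φ (w x)) := by
    intro φ s
    apply lintegral_congr_ae
    filter_upwards [ae_restrict_of_ae hWw] with x hx
    rw [hx]
  have H : ∀ (c : Fin d → ℝ) (r : ℝ), 0 < r → ∀ t : ℝ, 0 < t →
      ∫⁻ x in closedBall c r, ENNReal.ofReal (W x) ≤ ENNReal.ofReal t * volume (closedBall c r) →
      ∫⁻ x in closedBall c r, ENNReal.ofReal (W x ^ p) ≤
        ENNReal.ofReal ((K * t) ^ p) * volume (closedBall c r) := by
    intro c r hr t ht h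
    rw [hcongr (fun y => y)] at h
    rw [hcongr (fun y => y ^ p)]
    obtain ⟨h0, h1⟩ := avg_pos_fin w hw hpos c r hr
    have hv0 : volume (closedBall c r) ≠ 0 := (measure_closedBall_pos _ _ hr).ne'
    have hv1 : volume (closedBall c r) ≠ ∞ := measure_closedBall_lt_top.ne
    have h2 : cubeAvg (fun i => c i - r) (2 * r) (fun x => w x ^ p) ^ (1 / p) *
        (cubeAvg (fun i => c i - r) (2 * r) w)⁻¹ ≤ rhConst p w :=
      le_iSup_of_le (fun i => c i - r) (le_iSup_of_le (2 * r)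
        (le_iSup_of_le (by linarith) le_rfl))
    rw [cubeAvg_eq _ _ hr.le, cubeAvg_eq _ _ hr.le, ← div_eq_mul_inv,
      ENNReal.div_le_iff (ENNReal.div_pos h0 hv1).ne' (ENNReal.div_ne_top h1 hv0), hKe] at h2
    have h3 : (∫⁻ x in closedBall c r, ENNReal.ofReal (w x)) / volume (closedBall c r) ≤
        ENNReal.ofReal t := (ENNReal.div_le_iff hv0 hv1).2 h
    have h4 := h2.trans (mul_le_mul_right h3 _)
    rw [← ENNReal.ofReal_mul hK0.le, one_div, ENNReal.rpow_inv_le_iff (by linarith),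
      ENNReal.ofReal_rpow_of_pos (by positivity), ENNReal.div_le_iff hv0 hv1] at h4
    exact h4
  have hc : a = fun i => (fun i => a i + l / 2) i - l / 2 := by funext i; ring
  have hl2 : l = 2 * (l / 2) := by ring
  generalize (fun i => a i + l / 2) = c at hc
  have hr : 0 < l / 2 := by linarith
  generalize l / 2 = r at hc hl2 hr
  subst hc hl2
  rw [cubeAvg_eq _ _ hr.le, cubeAvg_eq _ _ hr.le]
  obtain ⟨h0, h1⟩ := avg_pos_fin w hw hpos c r hr
  have hv0 : volume (closedBall c r) ≠ 0 := (measure_closedBall_pos _ _ hr).ne'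
  have hv1 : volume (closedBall c r) ≠ ∞ := measure_closedBall_lt_top.ne
  set A := (∫⁻ x in closedBall c r, ENNReal.ofReal (w x)) / volume (closedBall c r) with hA
  have hA0 : A ≠ 0 := (ENNReal.div_pos h0 hv1).ne'
  have hA1 : A ≠ ∞ := ENNReal.div_ne_top h1 hv0
  have hAe : A = ENNReal.ofReal A.toReal := (ENNReal.ofReal_toReal hA1).symm
  have ha : 0 < A.toReal := ENNReal.toReal_pos hA0 hA1
  have hcore := core W hWm (fun x => le_max_right _ _) p K hp hK0 H c r hr A.toReal ha
    (by rw [hcongr (fun y => y), ← hAe, hA, ENNReal.div_mul_cancel hv0 hv1]) ε hε hε1 hε2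
  rw [hcongr (fun y => y ^ (p + ε)), ← ENNReal.div_le_iff hv0 hv1] at hcore
  refine hcore.trans ?_
  rw [hKe, hAe, ENNReal.ofReal_rpow_of_pos hK0, ENNReal.toReal_ofReal ha.le,
    ENNReal.ofReal_rpow_of_pos ha, show (2 : ℝ≥0∞) = ENNReal.ofReal 2 by simp,
    ← ENNReal.ofReal_mul (by positivity), ← ENNReal.ofReal_mul (by positivity)]
  apply ENNReal.ofReal_le_ofReal
  rw [Real.mul_rpow hK0.le ha.le, Real.rpow_add hK0, Real.rpow_add ha]
  have h5 : 1 ≤ K ^ ε := Real.one_le_rpow hK1 hε.le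
  have h6 : 0 ≤ 2 * (K ^ p * A.toReal ^ p) * A.toReal ^ ε := by positivity
  nlinarith

end Pool.Agent.P.MP_edcda5_an
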