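import Pool.Agent.P.MP_edcda5_an.Main

namespace Pool.Agent.P.MP_edcda5_an.VariantGehring

open MeasureTheory Pool.Agent.P.MP_edcda5_an

theorem result (d : ℕ) (_hd : 1 ≤ d) (p : ℝ) (hp : 1 < p) :
    ∃ c : ℝ, 0 < c ∧ ∀ w : (Fin d → ℝ) → ℝ, LocallyIntegrable w volume → (∀ᵐ x, 0 < w x) →
      rhConst p w < ⊤ → ∀ (a : Fin d → ℝ) (l : ℝ), 0 < l → ∀ ε : ℝ, 0 < ε →
        ε ≤ c * (rhConst p w).toReal ^ (-p) →
        cubeAvg a l (fun x => w x ^ (p + ε)) ≤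
          2 * rhConst p w ^ (p + ε) * cubeAvg a l w ^ (p + ε) :=
  ⟨min 1 ((p - 1) / (4 * 5 ^ d * 2 ^ p)),
    lt_min one_pos (div_pos (by linarith) (by positivity)), main d p hp⟩

end Pool.Agent.P.MP_edcda5_an.VariantGehring
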